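import Pool.Agent.H25.TL.TMUL

set_option autoImplicit false

namespace Pool.MP324.H25

open Pool.MP324

/-- centre estimate of the inverse: `|x 2^30 - m| ≤ e`, `i = 2^60 / m` ⇒ `|x⁻¹ 2^30 - i| ≤ (i+1)e/(m-e) + 2`,
in fact `≤ E - 1/…`; we prove the version with `E = ⌊(i+1)e/(m-e)⌋ + 2`. -/
theorem inv_est {x : ℝ} {m e : ℕ} (hm : e < m) (hx : |x * 2 ^ 30 - (m:ℝ)| ≤ (e:ℝ)) :
    0 < x ∧ |x⁻¹ * 2 ^ 30 - ((1152921504606846976 / m : ℕ) : ℝ)|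
      ≤ (((1152921504606846976 / m + 1) * e / (m - e) + 2 : ℕ) : ℝ) := by
  have hm0 : 0 < m := lt_of_le_of_lt (Nat.zero_le _) hm
  have hm0' : (0:ℝ) < m := by exact_mod_cast hm0
  have hem : (e:ℝ) < m := by exact_mod_cast hm
  have hd0 : 0 < m - e := Nat.sub_pos_of_lt hm
  have hdR : ((m - e : ℕ) : ℝ) = (m:ℝ) - e := by rw [Nat.cast_sub hm.le]
  have h30 : (0:ℝ) < 2 ^ 30 := by positivity
  rw [abs_le] at hx
  have hX : 0 < x * 2 ^ 30 := by linarith [hx.1]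
  have hx0 : 0 < x := (pos_iff_pos_of_mul_pos hX).mpr h30
  refine ⟨hx0, ?_⟩
  set i : ℕ := 1152921504606846976 / m with hi
  have f1 := Nat.div_add_mod 1152921504606846976 m
  rw [← hi] at f1
  have f2 := Nat.mod_lt 1152921504606846976 hm0
  have f1' : (1152921504606846976:ℝ) = m * (i:ℝ) + ((1152921504606846976 % m : ℕ) : ℝ) := by
    exact_mod_cast f1.symm
  have f2' : ((1152921504606846976 % m : ℕ) : ℝ) < m := by exact_mod_cast f2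
  have f3' : (0:ℝ) ≤ ((1152921504606846976 % m : ℕ) : ℝ) := Nat.cast_nonneg _
  set k : ℕ := (i + 1) * e / (m - e) with hk
  have g1 := Nat.div_add_mod ((i + 1) * e) (m - e)
  rw [← hk] at g1
  have g2 := Nat.mod_lt ((i + 1) * e) hd0
  have g1' : ((i:ℝ) + 1) * e = ((m:ℝ) - e) * k + (((i + 1) * e % (m - e) : ℕ) : ℝ) := by
    have := congrArg (fun z : ℕ => (z:ℝ)) g1.symm
    push_cast at this
    rw [hdR] at this
    exact this
  have g2' : (((i + 1) * e % (m - e) : ℕ) : ℝ) < (m:ℝ) - e := by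
    rw [← hdR]; exact_mod_cast g2
  have hS2 : (2:ℝ) ^ 30 * 2 ^ 30 = 1152921504606846976 := by norm_num
  set X : ℝ := x * 2 ^ 30 with hXd
  have e1 : x⁻¹ * 2 ^ 30 = 1152921504606846976 / X := by
    rw [hXd, ← hS2]; field_simp
  rw [e1]
  push_cast
  -- 2^60/X - i
  have hd : (0:ℝ) < (m:ℝ) - e := by linarith
  have kk : ((i:ℝ) + 1) * e ≤ ((m:ℝ) - e) * (k + 1) := by nlinarith
  rw [abs_le]
  have hi0 : (0:ℝ) ≤ i := Nat.cast_nonneg _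
  have hk0 : (0:ℝ) ≤ k := Nat.cast_nonneg _
  have he0 : (0:ℝ) ≤ e := Nat.cast_nonneg _
  have X1 : (m:ℝ) - e ≤ X := by linarith [hx.1]
  have X2 : X ≤ m + e := by linarith [hx.2]
  constructor
  · rw [le_sub_iff_add_le, le_div_iff₀ hX]
    -- (i - k - 2) X ≤ 2^60 ; i X ≤ i m + i e ≤ 2^60 + i e ; (k+2) X ≥ (k+1)(m-e) ≥ (i+1) e
    have t1 : (i:ℝ) * X ≤ i * (m + e) := mul_le_mul_of_nonneg_left X2 hi0
    have t2 : (k + 1 : ℝ) * ((m:ℝ) - e) ≤ (k + 2) * X := by nlinarith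
    nlinarith
  · rw [sub_le_iff_le_add, div_le_iff₀ hX]
    -- 2^60 ≤ (k+2+i) X ; 2^60 < (i+1) m ; (i+1) m = (i+1)(m-e) + (i+1)e
    have t1 : (1152921504606846976:ℝ) ≤ (i + 1) * m := by nlinarith
    have t2 : ((i:ℝ) + 1) * ((m:ℝ) - e) ≤ (i + 1) * X := mul_le_mul_of_nonneg_left X1 (by positivity)
    have t3 : ((m:ℝ) - e) * (k + 1) ≤ X * (k + 1) := mul_le_mul_of_nonneg_right X1 (by positivity)
    nlinarith

theorem dv_bounds (z : ℤ) : ((dv z : ℤ) : ℝ) * 2 ^ 30 ≤ z ∧ (z:ℝ) < (((dv z : ℤ) : ℝ) + 1) * 2 ^ 30 :=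
  shr_int z 30

theorem Rinv_proved : S_Rinv := by
  intro R1 R2 a b hD X x x' hX hok
  obtain ⟨o1, o2⟩ := and_ok hok
  obtain ⟨o3, o4⟩ := and_ok o2
  obtain ⟨x1, x2, σ, τ, x3, x4, x5⟩ := hX o1
  have hv : X.v < X.m.toNat := Nat.le_of_ble_eq_true o3
  have he : X.e < X.m.toNat := Nat.le_of_ble_eq_true o4
  have hm0 : 0 < X.m.toNat := lt_of_le_of_lt (Nat.zero_le _) he
  have h3 : 0 ≤ X.m := by
    by_contra hneg
    push Not at hneg
    have := Int.toNat_of_nonpos hneg.le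
    omega
  have h4 := Int.toNat_of_nonneg h3
  have h5 : (X.m : ℝ) = ((X.m.toNat : ℕ) : ℝ) := by
    exact_mod_cast congrArg (fun z : ℤ => (z:ℝ)) h4.symm
  rw [h5] at x1 x2
  obtain ⟨p1, q1⟩ := inv_est he x1
  obtain ⟨p2, q2⟩ := inv_est hv x2
  set m : ℕ := X.m.toNat with hm
  set i : ℕ := 1152921504606846976 / m with hi
  set ee : ℕ := (i + 1) * X.e / (m - X.e) + 2 with hee
  set vv : ℕ := (i + 1) * X.v / (m - X.v) + 2 with hvv
  have h30 : (0:ℝ) < 2 ^ 30 := by positivity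
  -- the product  x⁻¹ x'⁻¹ 2^60 ∈ i² ± Q
  set P : ℕ := (i + vv) * (i + ee) with hP
  set Q : ℕ := P - i * i with hQ
  have hPi : i * i ≤ P := by rw [hP]; exact Nat.mul_le_mul (Nat.le_add_right _ _) (Nat.le_add_right _ _)
  have hQR : (Q:ℝ) = P - (i:ℝ) * i := by rw [hQ, Nat.cast_sub hPi]; push_cast; ring
  have hPR : (P:ℝ) = (i + vv) * (i + ee) := by rw [hP]; push_cast; ring
  set u : ℝ := x⁻¹ * 2 ^ 30 with hu
  set u' : ℝ := x'⁻¹ * 2 ^ 30 with hu'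
  have hu0 : 0 ≤ u := by positivity
  have hu0' : 0 ≤ u' := by positivity
  have hi0 : (0:ℝ) ≤ i := Nat.cast_nonneg _
  have he0 : (0:ℝ) ≤ ee := Nat.cast_nonneg _
  have hv0 : (0:ℝ) ≤ vv := Nat.cast_nonneg _
  have w1 : |u * u' - (i:ℝ) * i| ≤ Q := by
    have := prod_est q1 q2 he0
    rw [abs_of_nonneg hi0] at this
    have e0 : (Q:ℝ) = i * vv + ee * (i + vv) := by rw [hQR, hPR]; ring
    rw [e0]; exact this
  have w2 : u * u' ≤ P := by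
    rw [abs_le] at w1
    have := w1.2
    rw [hQR] at this
    linarith
  -- slope estimate
  have slope : ∀ (p : ℝ) (s : ℤ) (r : ℕ), |p * 2 ^ 30 - (s:ℝ)| ≤ (r:ℝ) →
      |(-(p * x⁻¹ * x'⁻¹)) * 2 ^ 30 - ((Int.neg (dv (Int.mul (dv (Int.mul s (Int.ofNat i))) (Int.ofNat i))) : ℤ) : ℝ)|
      ≤ ((Nat.add (Nat.shiftRight (Nat.add (Nat.mul r P) (Nat.mul s.natAbs Q)) 60)
        (Nat.add (dn i) 4) : ℕ) : ℝ) := by
    intro p s r hp
    simp only [nadd, nmul', imul, ineg, Int.ofNat_eq_natCast]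
    -- exact product: p u u' vs s i i
    have a1 : |(p * 2 ^ 30) * (u * u') - (s:ℝ) * ((i:ℝ) * i)| ≤ ((r * P + s.natAbs * Q : ℕ) : ℝ) := by
      push_cast
      rw [abs_natAbs]
      have e0 : (p * 2 ^ 30) * (u * u') - (s:ℝ) * ((i:ℝ) * i)
          = (p * 2 ^ 30 - s) * (u * u') + s * (u * u' - i * i) := by ring
      rw [e0]
      refine (abs_add_le _ _).trans (add_le_add ?_ ?_)
      · rw [abs_mul, abs_of_nonneg (show 0 ≤ u * u' by positivity)]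
        exact mul_le_mul hp w2 (by positivity) (Nat.cast_nonneg _)
      · rw [abs_mul]
        exact mul_le_mul_of_nonneg_left w1 (abs_nonneg _)
    obtain ⟨b1, b2⟩ := shr_nat (r * P + s.natAbs * Q) 60
    set K : ℝ := ((Nat.shiftRight (r * P + s.natAbs * Q) 60 : ℕ) : ℝ)
    obtain ⟨c1, c2⟩ := dv_bounds (s * (i:ℤ))
    obtain ⟨d1, d2⟩ := dv_bounds (dv (s * (i:ℤ)) * (i:ℤ))
    obtain ⟨n1, n2⟩ := shr_nat i 30
    set D1 : ℝ := ((dv (s * (i:ℤ)) : ℤ) : ℝ)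
    set D2 : ℝ := ((dv (dv (s * (i:ℤ)) * (i:ℤ)) : ℤ) : ℝ)
    have hN : ((dn i : ℕ) : ℝ) = ((Nat.shiftRight i 30 : ℕ) : ℝ) := rfl
    set N : ℝ := ((Nat.shiftRight i 30 : ℕ) : ℝ)
    push_cast at c1 c2 d1 d2
    rw [Nat.cast_add, Nat.cast_add, hN]
    push_cast
    show |-(p * x⁻¹ * x'⁻¹) * 2 ^ 30 - -D2| ≤ K + (N + 4)
    have e1 : (-(p * x⁻¹ * x'⁻¹)) * 2 ^ 30 = -((p * 2 ^ 30) * (u * u') / 2 ^ 60) := by
      rw [hu, hu']; ring
    rw [e1]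
    have h60 : (0:ℝ) < 2 ^ 60 := by positivity
    rw [abs_le] at a1
    obtain ⟨a1, a2⟩ := a1
    set T : ℝ := (p * 2 ^ 30) * (u * u')
    -- T ∈ s i² ± (K+1) 2^60 ; D2 2^60 ∈ s i² + ...
    have hs1 : D2 * 2 ^ 60 ≤ s * (i * i) := by
      have : D2 * 2 ^ 60 = (D2 * 2 ^ 30) * 2 ^ 30 := by ring
      nlinarith
    have hs2 : s * (i * i) ≤ D2 * 2 ^ 60 + 2 ^ 60 + i * 2 ^ 30 := by
      have : D2 * 2 ^ 60 = (D2 * 2 ^ 30) * 2 ^ 30 := by ring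
      nlinarith
    have hi2 : (i:ℝ) * 2 ^ 30 ≤ (N + 1) * 2 ^ 60 := by
      have : (N + 1) * (2:ℝ) ^ 60 = ((N + 1) * 2 ^ 30) * 2 ^ 30 := by ring
      nlinarith
    rw [abs_le]
    constructor
    · have : T / 2 ^ 60 ≤ D2 + (K + (N + 4)) := by
        rw [div_le_iff₀ h60]
        nlinarith
      linarith
    · have : D2 - (K + (N + 4)) ≤ T / 2 ^ 60 := by
        rw [le_div_iff₀ h60]
        nlinarith [show (0:ℝ) ≤ N from Nat.cast_nonneg _]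
      linarith
  have s1 := slope σ X.s X.sr x4
  have s2 := slope τ X.t X.tr x5
  have hd : x'⁻¹ - x⁻¹ = (-(σ * x⁻¹ * x'⁻¹)) * a + (-(τ * x⁻¹ * x'⁻¹)) * b := by
    have : x'⁻¹ - x⁻¹ = -(x' - x) * (x⁻¹ * x'⁻¹) := by
      field_simp
      ring
    rw [this, x3]; ring
  refine ⟨?_, ?_, _, _, hd, s1, s2⟩
  · exact q1
  · exact disp_v hD q1 hd s1 s2

theorem TINV_proved : S_Rinv := Rinv_proved

end Pool.MP324.H25
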