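import Pool.Agent.H77.TL.ToolStm

set_option autoImplicit false

namespace Pool.MP324.H25

open Pool.MP324

theorem and_ok {p q : Bool} (h : and p q = true) : p = true ∧ q = true := by
  rwa [Bool.and_eq_true] at h

theorem iadd (a b : ℤ) : Int.add a b = a + b := rfl
theorem isub (a b : ℤ) : Int.sub a b = a - b := rfl
theorem ineg (a : ℤ) : Int.neg a = -a := rfl
theorem imul (a b : ℤ) : Int.mul a b = a * b := rfl
theorem nadd (a b : ℕ) : Nat.add a b = a + b := rfl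
theorem nmul' (a b : ℕ) : Nat.mul a b = a * b := rfl
theorem nsub (a b : ℕ) : Nat.sub a b = a - b := rfl
theorem ndiv (a b : ℕ) : Nat.div a b = a / b := rfl

theorem Rcst : S_Rcst := by
  intro a b x n e h _
  refine ⟨h, h, 0, 0, by ring, ?_, ?_⟩ <;> simp [A.cst]

theorem Rint : S_Rint := by
  intro a b n _
  refine ⟨?_, ?_, 0, 0, by ring, ?_, ?_⟩ <;> simp [A.int] <;> norm_num

theorem Radd : S_Radd := by
  intro a b X Y x x' y y' hX hY hok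
  obtain ⟨o1, o2⟩ := and_ok hok
  obtain ⟨x1, x2, σ, τ, x3, x4, x5⟩ := hX o1
  obtain ⟨y1, y2, σ', τ', y3, y4, y5⟩ := hY o2
  simp only [A.add, iadd, nadd]
  push_cast
  refine ⟨?_, ?_, σ + σ', τ + τ', by linear_combination x3 + y3, ?_, ?_⟩
  · have : (x + y) * 2 ^ 30 - ((X.m:ℝ) + Y.m) = (x * 2 ^ 30 - X.m) + (y * 2 ^ 30 - Y.m) := by ring
    rw [this]; exact (abs_add_le _ _).trans (add_le_add x1 y1)
  · have : (x' + y') * 2 ^ 30 - ((X.m:ℝ) + Y.m) = (x' * 2 ^ 30 - X.m) + (y' * 2 ^ 30 - Y.m) := by ring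
    rw [this]; exact (abs_add_le _ _).trans (add_le_add x2 y2)
  · have : (σ + σ') * 2 ^ 30 - ((X.s:ℝ) + Y.s) = (σ * 2 ^ 30 - X.s) + (σ' * 2 ^ 30 - Y.s) := by ring
    rw [this]; exact (abs_add_le _ _).trans (add_le_add x4 y4)
  · have : (τ + τ') * 2 ^ 30 - ((X.t:ℝ) + Y.t) = (τ * 2 ^ 30 - X.t) + (τ' * 2 ^ 30 - Y.t) := by ring
    rw [this]; exact (abs_add_le _ _).trans (add_le_add x5 y5)

theorem Rsub : S_Rsub := by
  intro a b X Y x x' y y' hX hY hok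
  obtain ⟨o1, o2⟩ := and_ok hok
  obtain ⟨x1, x2, σ, τ, x3, x4, x5⟩ := hX o1
  obtain ⟨y1, y2, σ', τ', y3, y4, y5⟩ := hY o2
  simp only [A.sub, isub, nadd]
  push_cast
  refine ⟨?_, ?_, σ - σ', τ - τ', by linear_combination x3 - y3, ?_, ?_⟩
  · have : (x - y) * 2 ^ 30 - ((X.m:ℝ) - Y.m) = (x * 2 ^ 30 - X.m) - (y * 2 ^ 30 - Y.m) := by ring
    rw [this]; exact (abs_sub _ _).trans (add_le_add x1 y1)
  · have : (x' - y') * 2 ^ 30 - ((X.m:ℝ) - Y.m) = (x' * 2 ^ 30 - X.m) - (y' * 2 ^ 30 - Y.m) := by ring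
    rw [this]; exact (abs_sub _ _).trans (add_le_add x2 y2)
  · have : (σ - σ') * 2 ^ 30 - ((X.s:ℝ) - Y.s) = (σ * 2 ^ 30 - X.s) - (σ' * 2 ^ 30 - Y.s) := by ring
    rw [this]; exact (abs_sub _ _).trans (add_le_add x4 y4)
  · have : (τ - τ') * 2 ^ 30 - ((X.t:ℝ) - Y.t) = (τ * 2 ^ 30 - X.t) - (τ' * 2 ^ 30 - Y.t) := by ring
    rw [this]; exact (abs_sub _ _).trans (add_le_add x5 y5)

theorem Rneg : S_Rneg := by
  intro a b X x x' hX hok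
  obtain ⟨x1, x2, σ, τ, x3, x4, x5⟩ := hX hok
  simp only [A.neg, ineg]
  push_cast
  refine ⟨?_, ?_, -σ, -τ, by linear_combination -x3, ?_, ?_⟩
  · have : (-x) * 2 ^ 30 - (-(X.m:ℝ)) = -(x * 2 ^ 30 - X.m) := by ring
    rw [this, abs_neg]; exact x1
  · have : (-x') * 2 ^ 30 - (-(X.m:ℝ)) = -(x' * 2 ^ 30 - X.m) := by ring
    rw [this, abs_neg]; exact x2
  · have : (-σ) * 2 ^ 30 - (-(X.s:ℝ)) = -(σ * 2 ^ 30 - X.s) := by ring
    rw [this, abs_neg]; exact x4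
  · have : (-τ) * 2 ^ 30 - (-(X.t:ℝ)) = -(τ * 2 ^ 30 - X.t) := by ring
    rw [this, abs_neg]; exact x5

theorem Rnmul : S_Rnmul := by
  intro a b n X x x' hX hok
  obtain ⟨x1, x2, σ, τ, x3, x4, x5⟩ := hX hok
  simp only [A.nmul, imul, nmul', Int.ofNat_eq_natCast]
  push_cast
  have key : ∀ (z : ℝ) (m : ℤ) (e : ℕ), |z * 2 ^ 30 - (m:ℝ)| ≤ (e:ℝ) →
      |(n:ℝ) * z * 2 ^ 30 - (n:ℝ) * (m:ℝ)| ≤ (n:ℝ) * (e:ℝ) := by
    intro z m e h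
    have : (n:ℝ) * z * 2 ^ 30 - (n:ℝ) * (m:ℝ) = (n:ℝ) * (z * 2 ^ 30 - m) := by ring
    rw [this, abs_mul, abs_of_nonneg (Nat.cast_nonneg n : (0:ℝ) ≤ n)]
    exact mul_le_mul_of_nonneg_left h (Nat.cast_nonneg n)
  exact ⟨key _ _ _ x1, key _ _ _ x2, n * σ, n * τ, by linear_combination (n:ℝ) * x3,
    key _ _ _ x4, key _ _ _ x5⟩

theorem shr_int (m : ℤ) (k : ℕ) : ((Int.shiftRight m k : ℤ) : ℝ) * 2 ^ k ≤ m ∧
    (m:ℝ) < (((Int.shiftRight m k : ℤ) : ℝ) + 1) * 2 ^ k := by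
  have h0 : Int.shiftRight m k = m / ((2 ^ k : ℕ) : ℤ) := Int.shiftRight_eq_div_pow m k
  rw [h0]
  have hpos : (0:ℤ) < ((2 ^ k : ℕ) : ℤ) := by positivity
  have h1 := Int.mul_ediv_add_emod m ((2 ^ k : ℕ) : ℤ)
  have h2 := Int.emod_nonneg m hpos.ne'
  have h3 := Int.emod_lt_of_pos m hpos
  have h1' : (m:ℝ) = (2:ℝ) ^ k * ((m / ((2 ^ k : ℕ) : ℤ) : ℤ) : ℝ) + ((m % ((2 ^ k : ℕ) : ℤ) : ℤ) : ℝ) := by
    have := congrArg (fun z : ℤ => (z:ℝ)) h1.symm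
    push_cast at this
    push_cast
    linarith
  have h2' : (0:ℝ) ≤ ((m % ((2 ^ k : ℕ) : ℤ) : ℤ) : ℝ) := by exact_mod_cast h2
  have h3' : ((m % ((2 ^ k : ℕ) : ℤ) : ℤ) : ℝ) < (2:ℝ) ^ k := by
    have := (Int.cast_lt (R := ℝ)).mpr h3
    push_cast at this
    push_cast
    exact this
  constructor <;> nlinarith

theorem shr_nat (m k : ℕ) : ((Nat.shiftRight m k : ℕ) : ℝ) * 2 ^ k ≤ m ∧
    (m:ℝ) < (((Nat.shiftRight m k : ℕ) : ℝ) + 1) * 2 ^ k := by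
  have h0 : Nat.shiftRight m k = m / 2 ^ k := Nat.shiftRight_eq_div_pow m k
  rw [h0]
  have hpos : 0 < 2 ^ k := by positivity
  have h1 := Nat.div_add_mod m (2 ^ k)
  have h3 := Nat.mod_lt m hpos
  have h1' : (m:ℝ) = (2:ℝ) ^ k * ((m / 2 ^ k : ℕ) : ℝ) + ((m % 2 ^ k : ℕ) : ℝ) := by
    exact_mod_cast h1.symm
  have h2' : (0:ℝ) ≤ ((m % 2 ^ k : ℕ) : ℝ) := Nat.cast_nonneg _
  have h3' : ((m % 2 ^ k : ℕ) : ℝ) < (2:ℝ) ^ k := by exact_mod_cast h3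
  constructor <;> nlinarith

theorem Rhalf : S_Rhalf := by
  intro a b X x x' hX hok
  obtain ⟨x1, x2, σ, τ, x3, x4, x5⟩ := hX hok
  simp only [A.half, nadd]
  have key : ∀ (z : ℝ) (m : ℤ) (e : ℕ), |z * 2 ^ 30 - (m:ℝ)| ≤ (e:ℝ) →
      |z / 2 * 2 ^ 30 - ((Int.shiftRight m 1 : ℤ) : ℝ)| ≤ ((Nat.shiftRight e 1 + 1 : ℕ) : ℝ) := by
    intro z m e h
    have hm0 : Int.shiftRight m 1 = m / ((2 ^ 1 : ℕ) : ℤ) := Int.shiftRight_eq_div_pow m 1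
    have hm : Int.shiftRight m 1 = m / 2 := by rw [hm0]; norm_num
    have he0 : Nat.shiftRight e 1 = e / 2 ^ 1 := Nat.shiftRight_eq_div_pow e 1
    have he : Nat.shiftRight e 1 = e / 2 := by rw [he0, pow_one]
    rw [hm, he]
    have a1 : 2 * (m / 2) ≤ m := by omega
    have a2 : m ≤ 2 * (m / 2) + 1 := by omega
    have b2 : e ≤ 2 * (e / 2) + 1 := by omega
    have a1' : 2 * ((m / 2 : ℤ) : ℝ) ≤ m := by exact_mod_cast a1
    have a2' : (m:ℝ) ≤ 2 * ((m / 2 : ℤ) : ℝ) + 1 := by exact_mod_cast a2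
    have b2' : (e:ℝ) ≤ 2 * ((e / 2 : ℕ) : ℝ) + 1 := by exact_mod_cast b2
    rw [Nat.cast_add, Nat.cast_one]
    rw [abs_le] at h ⊢
    obtain ⟨h1, h2⟩ := h
    constructor <;> linarith
  exact ⟨key _ _ _ x1, key _ _ _ x2, σ / 2, τ / 2, by linear_combination x3 / 2,
    key _ _ _ x4, key _ _ _ x5⟩

theorem TLIN_proved : S_LIN := ⟨Rcst, Rint, Radd, Rsub, Rneg, Rnmul, Rhalf⟩

end Pool.MP324.H25
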