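import Pool.Agent.H25.TL.TLIN

set_option autoImplicit false

namespace Pool.MP324.H25

open Pool.MP324

theorem abs_natAbs (z : ℤ) : ((z.natAbs : ℕ) : ℝ) = |(z:ℝ)| := by
  rw [Nat.cast_natAbs]; push_cast; rfl

/-- generic product estimate -/
theorem prod_est {x y m n e f : ℝ} (hx : |x - m| ≤ e) (hy : |y - n| ≤ f) (he : 0 ≤ e) :
    |x * y - m * n| ≤ |m| * f + e * (|n| + f) := by
  have e1 : x * y - m * n = m * (y - n) + (x - m) * y := by ring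
  rw [e1]
  have h1 : |m * (y - n)| ≤ |m| * f := by
    rw [abs_mul]; exact mul_le_mul_of_nonneg_left hy (abs_nonneg _)
  have h2 : |y| ≤ |n| + f := by
    have := abs_add_le (y - n) n
    rw [sub_add_cancel] at this
    linarith
  have h3 : |(x - m) * y| ≤ e * (|n| + f) := by
    rw [abs_mul]
    exact mul_le_mul hx h2 (abs_nonneg _) he
  exact (abs_add_le _ _).trans (add_le_add h1 h3)

/-- shift estimate: if `|X - Z| ≤ R` with `Z` an integer then `|X/2^30 - dv Z| ≤ dn R + 2` -/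
theorem dv_est {X : ℝ} {Z : ℤ} {R : ℕ} (h : |X - (Z:ℝ)| ≤ (R:ℝ)) :
    |X / 2 ^ 30 - ((dv Z : ℤ) : ℝ)| ≤ ((dn R : ℕ) : ℝ) + 2 := by
  obtain ⟨a1, a2⟩ := shr_int Z 30
  obtain ⟨b1, b2⟩ := shr_nat R 30
  unfold dv dn
  rw [abs_le] at h ⊢
  have h30 : (0:ℝ) < 2 ^ 30 := by positivity
  set q : ℝ := ((Int.shiftRight Z 30 : ℤ) : ℝ)
  set r : ℝ := ((Nat.shiftRight R 30 : ℕ) : ℝ)
  constructor
  · rw [le_sub_iff_add_le, le_div_iff₀ h30]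
    nlinarith [h.1, h.2]
  · rw [sub_le_iff_le_add, div_le_iff₀ h30]
    nlinarith [h.1, h.2]

theorem disp_v' {R1 R2 : ℕ} {a b σ τ x x' : ℝ} (hD : Disp R1 R2 a b) {m s t : ℤ} {e sr tr : ℕ}
    (h1 : |x * 2 ^ 30 - (m:ℝ)| ≤ (e:ℝ)) (h2 : x' - x = σ * a + τ * b)
    (h3 : |σ * 2 ^ 30 - (s:ℝ)| ≤ (sr:ℝ)) (h4 : |τ * 2 ^ 30 - (t:ℝ)| ≤ (tr:ℝ)) :
    |x' * 2 ^ 30 - (m:ℝ)| ≤ (e:ℝ) + (((dn (Nat.add (Nat.mul R1 (Nat.add s.natAbs sr))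
      (Nat.mul R2 (Nat.add t.natAbs tr)))) : ℕ) : ℝ) + 1 := by
  simp only [nadd, nmul']
  obtain ⟨b1, b2⟩ := shr_nat (R1 * (s.natAbs + sr) + R2 * (t.natAbs + tr)) 30
  have hR : ((R1 * (s.natAbs + sr) + R2 * (t.natAbs + tr) : ℕ) : ℝ)
      = (R1:ℝ) * (|(s:ℝ)| + sr) + (R2:ℝ) * (|(t:ℝ)| + tr) := by
    rw [← abs_natAbs, ← abs_natAbs]
    push_cast
    rfl
  rw [hR] at b2
  unfold dn
  set r : ℝ := ((Nat.shiftRight (R1 * (s.natAbs + sr) + R2 * (t.natAbs + tr)) 30 : ℕ) : ℝ) with hr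
  have h30 : (0:ℝ) < 2 ^ 30 := by positivity
  have hσ : |σ| * 2 ^ 30 ≤ |(s:ℝ)| + sr := by
    have := abs_add_le (σ * 2 ^ 30 - s) (s:ℝ)
    rw [sub_add_cancel, abs_mul, abs_of_pos h30] at this
    linarith
  have hτ : |τ| * 2 ^ 30 ≤ |(t:ℝ)| + tr := by
    have := abs_add_le (τ * 2 ^ 30 - t) (t:ℝ)
    rw [sub_add_cancel, abs_mul, abs_of_pos h30] at this
    linarith
  obtain ⟨d1, d2⟩ := hD
  have k1 : (|a| * 2 ^ 30) * (|σ| * 2 ^ 30) ≤ (R1:ℝ) * (|(s:ℝ)| + sr) :=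
    mul_le_mul d1 hσ (by positivity) (Nat.cast_nonneg _)
  have k2 : (|b| * 2 ^ 30) * (|τ| * 2 ^ 30) ≤ (R2:ℝ) * (|(t:ℝ)| + tr) :=
    mul_le_mul d2 hτ (by positivity) (Nat.cast_nonneg _)
  have k3 : (|σ * a + τ * b| * 2 ^ 30) * 2 ^ 30 ≤ (r + 1) * 2 ^ 30 := by
    have := abs_add_le (σ * a) (τ * b)
    rw [abs_mul, abs_mul] at this
    have k4 : (|σ * a + τ * b| * 2 ^ 30) * 2 ^ 30 ≤ ((|σ| * |a| + |τ| * |b|) * 2 ^ 30) * 2 ^ 30 := by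
      apply mul_le_mul_of_nonneg_right _ h30.le
      exact mul_le_mul_of_nonneg_right this h30.le
    nlinarith
  have k5 := le_of_mul_le_mul_right k3 h30
  have e1 : x' * 2 ^ 30 - (m:ℝ) = (x * 2 ^ 30 - m) + (σ * a + τ * b) * 2 ^ 30 := by
    rw [← h2]; ring
  rw [e1]
  have k6 := abs_add_le (x * 2 ^ 30 - m) ((σ * a + τ * b) * 2 ^ 30)
  rw [abs_mul (σ * a + τ * b), abs_of_pos h30] at k6
  linarith

theorem disp_v {R1 R2 : ℕ} {a b σ τ x x' : ℝ} (hD : Disp R1 R2 a b) {m s t : ℤ} {e sr tr : ℕ}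
    (h1 : |x * 2 ^ 30 - (m:ℝ)| ≤ (e:ℝ)) (h2 : x' - x = σ * a + τ * b)
    (h3 : |σ * 2 ^ 30 - (s:ℝ)| ≤ (sr:ℝ)) (h4 : |τ * 2 ^ 30 - (t:ℝ)| ≤ (tr:ℝ)) :
    |x' * 2 ^ 30 - (m:ℝ)| ≤ ((Nat.add e (Nat.add (dn (Nat.add (Nat.mul R1 (Nat.add s.natAbs sr))
      (Nat.mul R2 (Nat.add t.natAbs tr)))) 2) : ℕ) : ℝ) := by
  have h := disp_v' hD h1 h2 h3 h4
  rw [nadd e, nadd (dn _) 2, Nat.cast_add, Nat.cast_add]
  push_cast at h ⊢
  linarith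

theorem Rmul : S_Rmul := by
  intro R1 R2 a b hD X Y x x' y y' hX hY hok
  obtain ⟨o1, o2⟩ := and_ok hok
  obtain ⟨x1, x2, σ, τ, x3, x4, x5⟩ := hX o1
  obtain ⟨y1, y2, σ', τ', y3, y4, y5⟩ := hY o2
  have h30 : (0:ℝ) < 2 ^ 30 := by positivity
  -- centre
  have c1 : |(x * y) * 2 ^ 30 - ((dv (Int.mul X.m Y.m) : ℤ) : ℝ)|
      ≤ ((Nat.add (dn (Nat.add (Nat.mul X.m.natAbs Y.e) (Nat.mul X.e (Nat.add Y.m.natAbs Y.e)))) 2 : ℕ) : ℝ) := by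
    have := prod_est x1 y1 (Nat.cast_nonneg X.e)
    have e1 : |(x * 2 ^ 30) * (y * 2 ^ 30) - (((X.m * Y.m : ℤ)) : ℝ)|
        ≤ ((X.m.natAbs * Y.e + X.e * (Y.m.natAbs + Y.e) : ℕ) : ℝ) := by
      push_cast
      rw [← abs_natAbs, ← abs_natAbs] at this
      push_cast at this
      exact this
    have e2 := dv_est e1
    have e3 : (x * 2 ^ 30) * (y * 2 ^ 30) / 2 ^ 30 = (x * y) * 2 ^ 30 := by field_simp
    rw [e3] at e2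
    simp only [nadd, nmul', imul]
    push_cast
    push_cast at e2
    exact e2
  -- slopes
  have slope : ∀ (p p' : ℝ) (S1 S2 : ℤ) (r1 r2 : ℕ), |p * 2 ^ 30 - (S1:ℝ)| ≤ (r1:ℝ) →
      |p' * 2 ^ 30 - (S2:ℝ)| ≤ (r2:ℝ) →
      |(x' * p' + p * y) * 2 ^ 30 - ((dv (Int.add (Int.mul X.m S2) (Int.mul Y.m S1)) : ℤ) : ℝ)|
      ≤ ((Nat.add (dn (Nat.add (Nat.add (Nat.mul X.m.natAbs r2) (Nat.mul X.v (Nat.add S2.natAbs r2)))
        (Nat.add (Nat.mul Y.m.natAbs r1) (Nat.mul Y.e (Nat.add S1.natAbs r1))))) 2 : ℕ) : ℝ) := by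
    intro p p' S1 S2 r1 r2 hp hp'
    have t1 := prod_est x2 hp' (Nat.cast_nonneg X.v)
    have t2 := prod_est y1 hp (Nat.cast_nonneg Y.e)
    have e1 : |((x' * p' + p * y) * 2 ^ 30) * 2 ^ 30 - (((X.m * S2 + Y.m * S1 : ℤ)) : ℝ)|
        ≤ ((X.m.natAbs * r2 + X.v * (S2.natAbs + r2) + (Y.m.natAbs * r1 + Y.e * (S1.natAbs + r1)) : ℕ) : ℝ) := by
      push_cast
      rw [← abs_natAbs, ← abs_natAbs] at t1 t2
      push_cast at t1 t2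
      have e0 : ((x' * p' + p * y) * 2 ^ 30) * 2 ^ 30 - ((X.m:ℝ) * S2 + Y.m * S1)
          = ((x' * 2 ^ 30) * (p' * 2 ^ 30) - X.m * S2) + ((y * 2 ^ 30) * (p * 2 ^ 30) - Y.m * S1) := by ring
      rw [e0]
      exact (abs_add_le _ _).trans (add_le_add t1 t2)
    have e2 := dv_est e1
    have e3 : ((x' * p' + p * y) * 2 ^ 30) * 2 ^ 30 / 2 ^ 30 = (x' * p' + p * y) * 2 ^ 30 := by field_simp
    rw [e3] at e2
    simp only [nadd, nmul', imul, iadd]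
    push_cast
    push_cast at e2
    exact e2
  have s1 := slope σ σ' X.s Y.s X.sr Y.sr x4 y4
  have s2 := slope τ τ' X.t Y.t X.tr Y.tr x5 y5
  have hd : x' * y' - x * y = (x' * σ' + σ * y) * a + (x' * τ' + τ * y) * b := by
    linear_combination x' * y3 + y * x3
  refine ⟨c1, ?_, x' * σ' + σ * y, x' * τ' + τ * y, hd, s1, s2⟩
  exact disp_v hD c1 hd s1 s2

theorem Rpos : S_Rpos := by
  intro R1 R2 a b hD X x x' hX hpos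
  unfold A.pos at hpos
  obtain ⟨o1, o2⟩ := and_ok hpos
  obtain ⟨x1, x2, σ, τ, x3, x4, x5⟩ := hX o1
  have h1 := Nat.le_of_ble_eq_true o2
  have h2 := disp_v' hD x1 x3 x4 x5
  rw [nadd X.e, nadd (dn _) 2] at h1
  set K : ℕ := dn (Nat.add (Nat.mul R1 (Nat.add X.s.natAbs X.sr))
      (Nat.mul R2 (Nat.add X.t.natAbs X.tr))) with hK
  have h3 : 0 ≤ X.m := by
    by_contra hneg
    push Not at hneg
    have := Int.toNat_of_nonpos hneg.le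
    omega
  have h4 := Int.toNat_of_nonneg h3
  have h5 : ((X.m.toNat : ℕ) : ℝ) = (X.m : ℝ) := by
    exact_mod_cast congrArg (fun z : ℤ => (z:ℝ)) h4
  have h6 : ((X.e + (K + 2) : ℕ) : ℝ) ≤ (X.m:ℝ) := by
    rw [← h5]; exact_mod_cast h1
  push_cast at h6
  rw [abs_le] at h2
  have h7 : 0 < x' * 2 ^ 30 := by linarith [h2.1]
  exact (pos_iff_pos_of_mul_pos h7).mpr (by positivity)

theorem TMUL_proved : S_MUL := ⟨Rmul, Rpos⟩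

end Pool.MP324.H25
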