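import Pool.Agent.H74.TL.C2Red
import Pool.Agent.H61.TL.T5M
import Pool.Agent.H61.TL.C2XM
import Pool.Agent.H64.TL.Cal
import Pool.Agent.H64.TL.Cal2
import Pool.Agent.H64.TL.Eavg
import Pool.Agent.H87.TL.PAR2
import Pool.Agent.H87.TL.NEGAll
import Pool.Agent.H20.TL.AC2D
import Pool.Agent.H20.TL.AC2E
import Pool.Agent.H80.TL.AT5D
import Pool.Agent.H80.TL.AT5E
import Pool.Agent.H60.TL.TCH
import Pool.Agent.H60.TL.TSER
import Pool.Agent.H86.TL.TLG
import Pool.Agent.H25.TL.TLIN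
import Pool.Agent.H25.TL.TMUL
import Pool.Agent.H25.TL.TINV

/-!
# Crew TL, part C2 (helper25) : assembly
-/

set_option autoImplicit false

namespace Pool.MP324.H25

open Pool.MP324

theorem C2_all : S_C2 := by
  have hP := Pool.Agent.H87.TL.t_PAR2 TLIN_proved TMUL_proved TINV_proved
  have hLG : S_LG := TLG_proved TSER_proved
  exact Pool.Agent.H74.TL.t_C2RED Pool.Agent.H87.TL.neg_all
    (Pool.MP324.H61.T5M_proved TLIN_proved TMUL_proved TINV_proved hP.2.1 hP.2.2.2.1 TCH_proved hLG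
      Pool.Agent.H80.TL.AT5D_proved Pool.Agent.H80.TL.AT5E_proved)
    (Pool.MP324.H61.C2XM_proved TLIN_proved TMUL_proved TINV_proved hP.2.2.1 hP.2.2.2.2 TCH_proved hLG
      Pool.Agent.H20.TL.AC2D Pool.Agent.H20.TL.AC2E)
    Pool.MP324.EAV.t_EAVG Pool.MP324.CAL.t_CALm Pool.MP324.CAL.t_CALy Pool.MP324.CAL.t_CALyy

end Pool.MP324.H25
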