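import Pool.Agent.H25.TL.C2
import Pool.Agent.H40.TL.Chain
import Pool.Agent.H80.TL.Ind
import Pool.Agent.H29.TL.TPL
import Pool.Agent.H26.TL.R1
import Pool.Agent.H28.TL.Base3
import Pool.Agent.H76.TL.N1E

/-!
# Crew TL : S07979 from the last four parts (helper25)
-/

set_option autoImplicit false

namespace Pool.MP324.H25

open Pool.MP324

theorem N1_of (hN1M : S_N1M) : S_N1 := by
  intro m y z hm hy0 hy1 hy2 hz
  rcases le_total y (4076 / 4096) with h | h
  · exact hN1M m y z hm hy0 h hy2 hz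
  · exact H76TL.N1E_proved m y z hm h hy1 hy2 hz

theorem R2_of (hR2M : S_R2M) (hR2E : S_R2E) : S_R2 := by
  intro m x hm hx0 hx1 hx2
  rcases le_total x (4076 / 4096) with h | h
  · exact hR2M m x hm hx0 h hx2
  · exact hR2E m x hm h hx1 hx2

theorem T_of (hDEC : S_DEC) (hN1M : S_N1M) (hR2M : S_R2M) (hR2E : S_R2E) : S_T :=
  Pool.Agent.H80.TL.IND_proved Pool.MP324.BASE hDEC
    (TPL_proved CAL.t_CALf CAL.t_CALm CAL.t_CALy CAL.t_CALc (N1_of hN1M) C2_all)
    (R2_of hR2M hR2E)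

theorem S07979_of (hDEC : S_DEC) (hN1M : S_N1M) (hR2M : S_R2M) (hR2E : S_R2E) :
    ∀ (n : ℕ) (A : Finset (Fin n → Bool)),
      0 < A.card → A.card < 2 ^ n →
      (∃ i : Fin n,
          ((Finset.univ.filter (fun (x : Fin n → Bool) =>
              ¬ (x ∈ A ↔ Function.update x i (!(x i)) ∈ A))).card : ℝ) / 2 ^ n = 1) ∨
      2 * ((A.card : ℝ) / 2 ^ n) * (1 - (A.card : ℝ) / 2 ^ n) ≤
        ∑ i : Fin n,
          (((Finset.univ.filter (fun (x : Fin n → Bool) =>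
              ¬ (x ∈ A ↔ Function.update x i (!(x i)) ∈ A))).card : ℝ) / 2 ^ n) /
            Real.logb 2 (1 / (((Finset.univ.filter (fun (x : Fin n → Bool) =>
              ¬ (x ∈ A ↔ Function.update x i (!(x i)) ∈ A))).card : ℝ) / 2 ^ n)) :=
  Pool.Agent.H40.TL.RED_proved (T_of hDEC hN1M hR2M hR2E) Pool.MP324.R1.t_R1

end Pool.MP324.H25
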