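import Pool.Agent.H25.TL.Slope

/-!
# Slope forms, straight line programs and the adaptive checker (crew TL)
-/

set_option autoImplicit false

namespace Pool.TLI

/-- slope form: centre value `c`, slopes `s` (first variable), `t` (second variable), range `v` -/
structure Sl where
  c : I
  s : I
  t : I
  v : I

/-- `Enc dx dy Fc F A`: `Fc` = value at the centre of the box, `F` = value at the point -/
def Enc (dx dy Fc F : ℝ) (A : Sl) : Prop :=
  Mem Fc A.c ∧ Mem Fc A.v ∧ Mem F A.v ∧ ∃ a b : ℝ, Mem a A.s ∧ Mem b A.t ∧ F - Fc = a * dx + b * dy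

/-- mean value range -/
def mv (hx hy : Nat) (c s t : I) : I :=
  ⟨c.c, c.r + ((s.c.natAbs + s.r) * hx + (t.c.natAbs + t.r) * hy) / 1125899906842624 + 1⟩

def mkSl (hx hy : Nat) (c s t : I) : Sl := ⟨c, s, t, mv hx hy c s t⟩

theorem enc_mk {dx dy Fc F a b : ℝ} {hx hy : Nat} {c s t : I} (hdx : |dx * S| ≤ hx) (hdy : |dy * S| ≤ hy)
    (h1 : Mem Fc c) (h2 : Mem a s) (h3 : Mem b t) (h4 : F - Fc = a * dx + b * dy) :
    Enc dx dy Fc F (mkSl hx hy c s t) := by
  have hS := S_pos
  have hmain : (((((s.c.natAbs + s.r) * hx + (t.c.natAbs + t.r) * hy) / 1125899906842624 : ℕ) : ℝ) + 1) * S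
      ≥ (((s.c.natAbs + s.r) * hx + (t.c.natAbs + t.r) * hy : ℕ) : ℝ) := ndiv_bounds _
  push_cast at hmain
  rw [← abs_cast_int, ← abs_cast_int] at hmain
  have key : (((c.r + ((s.c.natAbs + s.r) * hx + (t.c.natAbs + t.r) * hy) / 1125899906842624 + 1 : ℕ)) : ℝ)
      = c.r + ((((s.c.natAbs + s.r) * hx + (t.c.natAbs + t.r) * hy) / 1125899906842624 : ℕ) : ℝ) + 1 := by
    push_cast; ring
  set q : ℝ := ((((s.c.natAbs + s.r) * hx + (t.c.natAbs + t.r) * hy) / 1125899906842624 : ℕ) : ℝ)
  have hq : 0 ≤ q := Nat.cast_nonneg _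
  refine ⟨h1, ?_, ?_, a, b, h2, h3, h4⟩
  · show |Fc * S - (c.c:ℝ)| ≤ _
    unfold mkSl mv
    simp only
    rw [key]
    unfold Mem at h1
    linarith
  · show |F * S - (c.c:ℝ)| ≤ _
    unfold mkSl mv
    simp only
    rw [key]
    unfold Mem at h1 h2 h3
    have e : F * S - (c.c:ℝ) = (Fc * S - c.c) + (a * dx * S + b * dy * S) := by
      have : F = Fc + (a * dx + b * dy) := by linarith
      rw [this]; ring
    rw [e]
    have ha : |a| * S ≤ |(s.c:ℝ)| + s.r := by
      have : |a * S| ≤ |a * S - s.c| + |(s.c:ℝ)| := by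
        have := abs_add_le (a * S - s.c) (s.c:ℝ)
        simpa using this
      rw [abs_mul, abs_of_pos hS] at this
      linarith
    have hb : |b| * S ≤ |(t.c:ℝ)| + t.r := by
      have : |b * S| ≤ |b * S - t.c| + |(t.c:ℝ)| := by
        have := abs_add_le (b * S - t.c) (t.c:ℝ)
        simpa using this
      rw [abs_mul, abs_of_pos hS] at this
      linarith
    rw [abs_mul, abs_of_pos hS] at hdx hdy
    have k1 : |a * dx * S| * S ≤ (|(s.c:ℝ)| + s.r) * hx := by
      rw [abs_mul, abs_mul, abs_of_pos hS]
      calc |a| * |dx| * S * S = (|a| * S) * (|dx| * S) := by ring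
        _ ≤ _ := mul_le_mul ha hdx (by positivity) (by positivity)
    have k2 : |b * dy * S| * S ≤ (|(t.c:ℝ)| + t.r) * hy := by
      rw [abs_mul, abs_mul, abs_of_pos hS]
      calc |b| * |dy| * S * S = (|b| * S) * (|dy| * S) := by ring
        _ ≤ _ := mul_le_mul hb hdy (by positivity) (by positivity)
    have k3 : (|a * dx * S| + |b * dy * S|) * S ≤ (q + 1) * S := by
      rw [add_mul]; linarith
    have k4 := le_of_mul_le_mul_right k3 hS
    have k5 := abs_add_le (Fc * S - c.c) (a * dx * S + b * dy * S)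
    have k6 := abs_add_le (a * dx * S) (b * dy * S)
    linarith

def zeroI : I := ⟨0, 0⟩
def oneI : I := ⟨1125899906842624, 0⟩

theorem mem_zero : Mem 0 zeroI := by unfold Mem zeroI; norm_num
theorem mem_one : Mem 1 oneI := by unfold Mem oneI S; norm_num

/-- enclosure of `1 / ln 2` -/
def ccI : I := ⟨1624330212139200, 700000⟩

theorem mem_cc : Mem (1 / Real.log 2) ccI := by
  unfold Mem ccI S
  have h1 := Real.log_two_gt_d9
  have h2 := Real.log_two_lt_d9
  have h0 : (0:ℝ) < Real.log 2 := by linarith
  rw [abs_le]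
  have e : 1 / Real.log 2 * 1125899906842624 = 1125899906842624 / Real.log 2 := by ring
  rw [e]
  constructor
  · have : (1624330212139200 - 700000 : ℝ) ≤ 1125899906842624 / Real.log 2 := by
      rw [le_div_iff₀ h0]; nlinarith
    push_cast; linarith
  · have : 1125899906842624 / Real.log 2 ≤ (1624330212139200 + 700000 : ℝ) := by
      rw [div_le_iff₀ h0]; nlinarith
    push_cast; linarith

/-- rational constant -/
def ratI (num : Int) (den : Nat) : I := ⟨num * 1125899906842624 / Int.ofNat den, 1⟩

theorem mem_rat (num : Int) (den : Nat) (hd : Nat.blt 0 den = true) : Mem ((num:ℝ) / den) (ratI num den) := by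
  have hd' : 0 < den := Nat.le_of_ble_eq_true hd
  unfold Mem ratI
  have hS : S = 1125899906842624 := rfl
  have hdZ : (0:ℤ) < (den:ℤ) := by exact_mod_cast hd'
  have h1 := Int.mul_ediv_add_emod (num * 1125899906842624) (den:ℤ)
  have h2 := Int.emod_nonneg (num * 1125899906842624) hdZ.ne'
  have h3 := Int.emod_lt_of_pos (num * 1125899906842624) hdZ
  have h1' : ((num:ℝ) * 1125899906842624) = den * ((num * 1125899906842624 / (den:ℤ) : ℤ) : ℝ)
      + ((num * 1125899906842624 % (den:ℤ) : ℤ) : ℝ) := by exact_mod_cast h1.symm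
  have h2' : (0:ℝ) ≤ ((num * 1125899906842624 % (den:ℤ) : ℤ) : ℝ) := by exact_mod_cast h2
  have h3' : ((num * 1125899906842624 % (den:ℤ) : ℤ) : ℝ) < den := by exact_mod_cast h3
  have hdR : (0:ℝ) < den := by exact_mod_cast hd'
  simp only [Int.ofNat_eq_natCast]
  rw [hS, div_mul_eq_mul_div, h1', add_div, mul_div_cancel_left₀ _ hdR.ne']
  have : ((num * 1125899906842624 % (den:ℤ) : ℤ) : ℝ) / den ≤ 1 := by
    rw [div_le_one hdR]; exact h3'.le
  have h0 : 0 ≤ ((num * 1125899906842624 % (den:ℤ) : ℤ) : ℝ) / den := by positivity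
  rw [abs_le]
  push_cast
  constructor <;> linarith

/-! ### programs -/

inductive Op where
  | x | y | cc
  | rat (num : Int) (den : Nat)
  | add (i j : Nat)
  | sub (i j : Nat)
  | mul (i j : Nat)
  | smul (k : Int) (i : Nat)
  | sqr (i : Nat)
  | inv (i : Nat)
  | lg (i : Nat)

/-- list lookup; the registers are numbered from the most recent one (`0`) -/
def nth {α : Type} (d : α) : List α → Nat → α
  | [], _ => d
  | a :: _, 0 => a
  | _ :: l, n + 1 => nth d l n

/-- real semantics -/
noncomputable def Op.sem (x y : ℝ) (st : List ℝ) : Op → ℝ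
  | .x => x
  | .y => y
  | .cc => 1 / Real.log 2
  | .rat num den => (num : ℝ) / den
  | .add i j => nth 0 st i + nth 0 st j
  | .sub i j => nth 0 st i - nth 0 st j
  | .mul i j => nth 0 st i * nth 0 st j
  | .smul k i => (k : ℝ) * nth 0 st i
  | .sqr i => nth 0 st i * nth 0 st i
  | .inv i => 1 / nth 0 st i
  | .lg i => Real.logb 2 (nth 0 st i)

noncomputable def sem (x y : ℝ) : List Op → List ℝ → List ℝ
  | [], st => st
  | o :: os, st => sem x y os (o.sem x y st :: st)

structure Box where
  x0 : Int
  hx : Nat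
  y0 : Int
  hy : Nat

def Box.Has (b : Box) (x y : ℝ) : Prop := |x * S - b.x0| ≤ b.hx ∧ |y * S - b.y0| ≤ b.hy

def zeroSl : Sl := ⟨zeroI, zeroI, zeroI, zeroI⟩

def Sl.mulS (hx hy : Nat) (a b : Sl) : Sl :=
  mkSl hx hy (a.c.mul b.c) ((a.v.mul b.s).add (b.c.mul a.s)) ((a.v.mul b.t).add (b.c.mul a.t))

def Sl.sqrS (hx hy : Nat) (a : Sl) : Sl :=
  mkSl hx hy (a.c.mul a.c) ((a.v.add a.c).mul a.s) ((a.v.add a.c).mul a.t)

def Sl.chain (hx hy : Nat) (a : Sl) (c k : I) : Sl := mkSl hx hy c (k.mul a.s) (k.mul a.t)

def Op.ev (b : Box) (st : List Sl) : Op → Option Sl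
  | .x => some (mkSl b.hx b.hy ⟨b.x0, 0⟩ oneI zeroI)
  | .y => some (mkSl b.hx b.hy ⟨b.y0, 0⟩ zeroI oneI)
  | .cc => some (mkSl b.hx b.hy ccI zeroI zeroI)
  | .rat num den =>
    match Nat.blt 0 den with
    | true => some (mkSl b.hx b.hy (ratI num den) zeroI zeroI)
    | false => none
  | .add i j =>
    some (mkSl b.hx b.hy ((nth zeroSl st i).c.add (nth zeroSl st j).c)
      ((nth zeroSl st i).s.add (nth zeroSl st j).s) ((nth zeroSl st i).t.add (nth zeroSl st j).t))
  | .sub i j =>
    some (mkSl b.hx b.hy ((nth zeroSl st i).c.sub (nth zeroSl st j).c)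
      ((nth zeroSl st i).s.sub (nth zeroSl st j).s) ((nth zeroSl st i).t.sub (nth zeroSl st j).t))
  | .mul i j => some (Sl.mulS b.hx b.hy (nth zeroSl st i) (nth zeroSl st j))
  | .smul k i =>
    some (mkSl b.hx b.hy ((nth zeroSl st i).c.smul k) ((nth zeroSl st i).s.smul k)
      ((nth zeroSl st i).t.smul k))
  | .sqr i => some (Sl.sqrS b.hx b.hy (nth zeroSl st i))
  | .inv i =>
    match (nth zeroSl st i).c.pos && (nth zeroSl st i).v.pos with
    | true => some (Sl.chain b.hx b.hy (nth zeroSl st i) (nth zeroSl st i).c.inv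
        (((nth zeroSl st i).c.inv.mul (nth zeroSl st i).v.inv).neg))
    | false => none
  | .lg i =>
    match (nth zeroSl st i).c.lgok && (nth zeroSl st i).v.pos with
    | true => some (Sl.chain b.hx b.hy (nth zeroSl st i) (nth zeroSl st i).c.lg
        (ccI.mul (nth zeroSl st i).v.inv))
    | false => none

def evalP (b : Box) : List Op → List Sl → Option (List Sl)
  | [], st => some st
  | o :: os, st =>
    match o.ev b st with
    | none => none
    | some a => evalP b os (a :: st)

/-- enclosure of lists of registers -/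
inductive EncL (dx dy : ℝ) : List ℝ → List ℝ → List Sl → Prop
  | nil : EncL dx dy [] [] []
  | cons {fc f : ℝ} {a : Sl} {lc l : List ℝ} {la : List Sl} :
      Enc dx dy fc f a → EncL dx dy lc l la → EncL dx dy (fc :: lc) (f :: l) (a :: la)

theorem enc_zero (dx dy : ℝ) : Enc dx dy 0 0 zeroSl :=
  ⟨mem_zero, mem_zero, mem_zero, 0, 0, mem_zero, mem_zero, by ring⟩

theorem EncL.nth {dx dy : ℝ} {lc l : List ℝ} {la : List Sl} (h : EncL dx dy lc l la) :
    ∀ i : Nat, Enc dx dy (nth 0 lc i) (nth 0 l i) (Pool.TLI.nth zeroSl la i) := by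
  induction h with
  | nil => intro i; exact enc_zero dx dy
  | cons h1 _ ih =>
    intro i
    cases i with
    | zero => exact h1
    | succ n => exact ih n

theorem enc_chain {dx dy Fc F Gc G k : ℝ} {hx hy : Nat} {A : Sl} {c kk : I}
    (hdx : |dx * S| ≤ hx) (hdy : |dy * S| ≤ hy)
    (h : Enc dx dy Fc F A) (h1 : Mem Gc c) (h2 : Mem k kk) (h3 : G - Gc = k * (F - Fc)) :
    Enc dx dy Gc G (A.chain hx hy c kk) := by
  obtain ⟨_, _, _, a, b, ha, hb, hab⟩ := h
  refine enc_mk hdx hdy h1 (mem_mul h2 ha) (mem_mul h2 hb) ?_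
  rw [h3, hab]; ring

/-- mean value theorem for `log₂` -/
theorem logb_mvt {u v : ℝ} (hu : 0 < u) (hv : 0 < v) :
    ∃ ξ : ℝ, min u v ≤ ξ ∧ ξ ≤ max u v ∧ 0 < ξ ∧
      Real.logb 2 v - Real.logb 2 u = 1 / Real.log 2 * (1 / ξ) * (v - u) := by
  have h2 : (0:ℝ) < Real.log 2 := by have := log2_half; linarith
  have key : ∀ p q : ℝ, 0 < p → p < q → ∃ ξ : ℝ, p ≤ ξ ∧ ξ ≤ q ∧ 0 < ξ ∧
      Real.log q - Real.log p = 1 / ξ * (q - p) := by
    intro p q hp hpq
    obtain ⟨ξ, hξ, he⟩ := exists_hasDerivAt_eq_slope Real.log (fun z => 1 / z) hpq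
      (fun z hz => (Real.hasDerivAt_log (by linarith [hz.1])).continuousAt.continuousWithinAt)
      (fun z hz => by
        have := Real.hasDerivAt_log (show z ≠ 0 by linarith [hz.1])
        simpa [one_div] using this)
    refine ⟨ξ, hξ.1.le, hξ.2.le, by linarith [hξ.1], ?_⟩
    have hqp : q - p ≠ 0 := by linarith
    rw [he]; field_simp
  rcases lt_trichotomy u v with h | h | h
  · obtain ⟨ξ, a, b, c, d⟩ := key u v hu h
    refine ⟨ξ, by rw [min_eq_left h.le]; exact a, by rw [max_eq_right h.le]; exact b, c, ?_⟩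
    rw [Real.logb, Real.logb, ← sub_div, d]; field_simp
  · subst h
    refine ⟨u, by simp, by simp, hu, by ring⟩
  · obtain ⟨ξ, a, b, c, d⟩ := key v u hv h
    refine ⟨ξ, by rw [min_eq_right h.le]; exact a, by rw [max_eq_left h.le]; exact b, c, ?_⟩
    rw [Real.logb, Real.logb, ← sub_div]
    have : Real.log v - Real.log u = -(1 / ξ * (u - v)) := by linarith
    rw [this]; field_simp; ring

theorem mem_between {u v ξ : ℝ} {a : I} (hu : Mem u a) (hv : Mem v a) (h1 : min u v ≤ ξ) (h2 : ξ ≤ max u v) :
    Mem ξ a := by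
  have hS := S_pos
  unfold Mem at *
  rw [abs_le] at *
  constructor
  · rcases min_le_iff.mp h1 with h | h
    · nlinarith [mul_le_mul_of_nonneg_right h hS.le]
    · nlinarith [mul_le_mul_of_nonneg_right h hS.le]
  · rcases le_max_iff.mp h2 with h | h
    · nlinarith [mul_le_mul_of_nonneg_right h hS.le]
    · nlinarith [mul_le_mul_of_nonneg_right h hS.le]

theorem op_sound {b : Box} {xc yc x y : ℝ} (hxc : xc * S = b.x0) (hyc : yc * S = b.y0)
    (hx : |(x - xc) * S| ≤ b.hx) (hy : |(y - yc) * S| ≤ b.hy)
    {lc l : List ℝ} {la : List Sl} (h : EncL (x - xc) (y - yc) lc l la) (o : Op) (a : Sl)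
    (ho : o.ev b la = some a) :
    Enc (x - xc) (y - yc) (o.sem xc yc lc) (o.sem x y l) a := by
  cases o with
  | x =>
    simp only [Op.ev, Option.some.injEq] at ho
    subst ho
    refine enc_mk hx hy ?_ mem_one mem_zero ?_
    · unfold Mem; simp [Op.sem, hxc]
    · simp [Op.sem]
  | y =>
    simp only [Op.ev, Option.some.injEq] at ho
    subst ho
    refine enc_mk hx hy ?_ mem_zero mem_one ?_
    · unfold Mem; simp [Op.sem, hyc]
    · simp [Op.sem]
  | cc =>
    simp only [Op.ev, Option.some.injEq] at ho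
    subst ho
    refine enc_mk hx hy mem_cc mem_zero mem_zero ?_
    simp [Op.sem]
  | rat num den =>
    simp only [Op.ev] at ho
    cases hd : Nat.blt 0 den with
    | false => rw [hd] at ho; simp at ho
    | true =>
      rw [hd] at ho
      simp only [Option.some.injEq] at ho
      subst ho
      refine enc_mk hx hy (mem_rat num den hd) mem_zero mem_zero ?_
      simp [Op.sem]
  | add i j =>
    simp only [Op.ev, Option.some.injEq] at ho
    subst ho
    obtain ⟨a1, _, _, p, q, hp, hq, hpq⟩ := h.nth i
    obtain ⟨b1, _, _, r, s, hr, hs, hrs⟩ := h.nth j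
    refine enc_mk hx hy (mem_add a1 b1) (mem_add hp hr) (mem_add hq hs) ?_
    simp only [Op.sem]
    linear_combination hpq + hrs
  | sub i j =>
    simp only [Op.ev, Option.some.injEq] at ho
    subst ho
    obtain ⟨a1, _, _, p, q, hp, hq, hpq⟩ := h.nth i
    obtain ⟨b1, _, _, r, s, hr, hs, hrs⟩ := h.nth j
    refine enc_mk hx hy (mem_sub a1 b1) (mem_sub hp hr) (mem_sub hq hs) ?_
    simp only [Op.sem]
    linear_combination hpq - hrs
  | mul i j =>
    simp only [Op.ev, Option.some.injEq] at ho
    subst ho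
    obtain ⟨a1, _, a3, p, q, hp, hq, hpq⟩ := h.nth i
    obtain ⟨b1, _, _, r, s, hr, hs, hrs⟩ := h.nth j
    refine enc_mk hx hy (mem_mul a1 b1) (mem_add (mem_mul a3 hr) (mem_mul b1 hp))
      (mem_add (mem_mul a3 hs) (mem_mul b1 hq)) ?_
    simp only [Op.sem]
    linear_combination (nth 0 lc j) * hpq + (nth 0 l i) * hrs
  | smul k i =>
    simp only [Op.ev, Option.some.injEq] at ho
    subst ho
    obtain ⟨a1, _, _, p, q, hp, hq, hpq⟩ := h.nth i
    refine enc_mk hx hy (mem_smul k a1) (mem_smul k hp) (mem_smul k hq) ?_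
    simp only [Op.sem]
    linear_combination (k:ℝ) * hpq
  | sqr i =>
    simp only [Op.ev, Option.some.injEq] at ho
    subst ho
    obtain ⟨a1, _, a3, p, q, hp, hq, hpq⟩ := h.nth i
    refine enc_mk hx hy (mem_mul a1 a1) (mem_mul (mem_add a3 a1) hp) (mem_mul (mem_add a3 a1) hq) ?_
    simp only [Op.sem]
    linear_combination (nth 0 l i + nth 0 lc i) * hpq
  | inv i =>
    simp only [Op.ev] at ho
    cases hd : (Pool.TLI.nth zeroSl la i).c.pos && (Pool.TLI.nth zeroSl la i).v.pos with
    | false => rw [hd] at ho; simp at ho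
    | true =>
      rw [hd] at ho
      simp only [Option.some.injEq] at ho
      subst ho
      rw [Bool.and_eq_true] at hd
      have hh := h.nth i
      obtain ⟨a1, a2, a3, _⟩ := hh
      have p1 := mem_pos hd.1 a1
      have p2 := mem_pos hd.2 a3
      refine enc_chain (k := -(1 / nth 0 lc i * (1 / nth 0 l i))) hx hy (h.nth i) (mem_inv hd.1 a1)
        (mem_neg (mem_mul (mem_inv hd.1 a1) (mem_inv hd.2 a3))) ?_
      simp only [Op.sem]
      field_simp
      ring
  | lg i =>
    simp only [Op.ev] at ho
    cases hd : (Pool.TLI.nth zeroSl la i).c.lgok && (Pool.TLI.nth zeroSl la i).v.pos with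
    | false => rw [hd] at ho; simp at ho
    | true =>
      rw [hd] at ho
      simp only [Option.some.injEq] at ho
      subst ho
      rw [Bool.and_eq_true] at hd
      have hh := h.nth i
      obtain ⟨a1, a2, a3, _⟩ := hh
      have hpos : (Pool.TLI.nth zeroSl la i).c.pos = true := by
        have := hd.1
        unfold I.lgok at this
        rw [Bool.and_eq_true] at this
        exact this.1
      have p1 := mem_pos hpos a1
      have p2 := mem_pos hd.2 a3
      obtain ⟨ξ, x1, x2, x3, x4⟩ := logb_mvt p1 p2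
      refine enc_chain (k := 1 / Real.log 2 * (1 / ξ)) hx hy (h.nth i) (mem_lg hd.1 a1)
        (mem_mul mem_cc (mem_inv hd.2 (mem_between a2 a3 x1 x2))) ?_
      simp only [Op.sem]
      exact x4

theorem evalP_sound {b : Box} {xc yc x y : ℝ} (hxc : xc * S = b.x0) (hyc : yc * S = b.y0)
    (hx : |(x - xc) * S| ≤ b.hx) (hy : |(y - yc) * S| ≤ b.hy) (os : List Op) :
    ∀ (lc l : List ℝ) (la ra : List Sl), EncL (x - xc) (y - yc) lc l la → evalP b os la = some ra →
      EncL (x - xc) (y - yc) (sem xc yc os lc) (sem x y os l) ra := by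
  induction os with
  | nil =>
    intro lc l la ra h he
    simp only [evalP, Option.some.injEq] at he
    subst he
    exact h
  | cons o os ih =>
    intro lc l la ra h he
    simp only [evalP] at he
    cases ho : o.ev b la with
    | none => rw [ho] at he; simp at he
    | some a =>
      rw [ho] at he
      simp only at he
      exact ih _ _ _ _ (EncL.cons (op_sound hxc hyc hx hy h o a ho) h) he

/-! ### goals and the adaptive checker -/

/-- nonnegativity test -/
def nonneg (a : I) : Bool :=
  match a.c with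
  | .ofNat n => Nat.ble a.r n
  | .negSucc _ => false

theorem nonneg_sound {a : I} {x : ℝ} (h : nonneg a = true) (hx : Mem x a) : 0 ≤ x := by
  unfold nonneg at h
  unfold Mem at hx
  have hS := S_pos
  cases hc : a.c with
  | negSucc n => rw [hc] at h; simp at h
  | ofNat n =>
    rw [hc] at h hx
    have h1 : a.r ≤ n := Nat.le_of_ble_eq_true h
    have h1' : (a.r:ℝ) ≤ n := by exact_mod_cast h1
    rw [abs_le] at hx
    have h2 := hx.1
    simp only [Int.ofNat_eq_natCast, Int.cast_natCast] at h2
    have : 0 ≤ x * S := by linarith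
    by_contra hneg
    push Not at hneg
    nlinarith [mul_pos_of_neg_of_neg hneg (neg_neg_of_pos hS)]

def clauseOk (st : List Sl) : List Nat → Bool
  | [] => true
  | i :: is => match nonneg (nth zeroSl st i).v with
    | true => clauseOk st is
    | false => false

def goalOk (st : List Sl) : List (List Nat) → Bool
  | [] => false
  | c :: cs => match clauseOk st c with
    | true => true
    | false => goalOk st cs

/-- the goal: a disjunction of conjunctions of `0 ≤ register` -/
def Goal (st : List ℝ) (g : List (List Nat)) : Prop := ∃ c ∈ g, ∀ i ∈ c, 0 ≤ nth 0 st i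

theorem clauseOk_sound {dx dy : ℝ} {lc l : List ℝ} {la : List Sl} (h : EncL dx dy lc l la) :
    ∀ c : List Nat, clauseOk la c = true → ∀ i ∈ c, 0 ≤ nth 0 l i := by
  intro c
  induction c with
  | nil => intro _ i hi; simp at hi
  | cons j js ih =>
    intro hc i hi
    simp only [clauseOk] at hc
    cases hj : nonneg (nth zeroSl la j).v with
    | false => rw [hj] at hc; simp at hc
    | true =>
      rw [hj] at hc
      rcases List.mem_cons.mp hi with rfl | hi'
      · exact nonneg_sound hj (h.nth i).2.2.1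
      · exact ih hc i hi'

theorem goalOk_sound {dx dy : ℝ} {lc l : List ℝ} {la : List Sl} (h : EncL dx dy lc l la) :
    ∀ g : List (List Nat), goalOk la g = true → Goal l g := by
  intro g
  induction g with
  | nil => intro hg; simp [goalOk] at hg
  | cons c cs ih =>
    intro hg
    simp only [goalOk] at hg
    cases hc : clauseOk la c with
    | true => exact ⟨c, by simp, clauseOk_sound h c hc⟩
    | false =>
      rw [hc] at hg
      obtain ⟨c', hc', h'⟩ := ih hg
      exact ⟨c', by simp [hc'], h'⟩

/-- result of one evaluation: `0` = goal proved, `1` = split `x`, `2` = split `y` -/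
def tryBox (os : List Op) (g : List (List Nat)) (dir : Nat) (b : Box) : Nat :=
  match evalP b os [] with
  | none => match Nat.blt b.hx b.hy with
    | true => 2
    | false => 1
  | some st => match goalOk st g with
    | true => 0
    | false =>
      match Nat.blt ((nth zeroSl st dir).s.c.natAbs * b.hx) ((nth zeroSl st dir).t.c.natAbs * b.hy) with
      | true => 2
      | false => 1

def half (n : Nat) : Nat := (n + 1) / 2

def auto (os : List Op) (g : List (List Nat)) (dir : Nat) : Nat → Box → Bool
  | 0, _ => false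
  | n + 1, b =>
    match tryBox os g dir b with
    | 0 => true
    | 1 => match auto os g dir n ⟨b.x0 - Int.ofNat (half b.hx), half b.hx, b.y0, b.hy⟩ with
      | true => auto os g dir n ⟨b.x0 + Int.ofNat (half b.hx), half b.hx, b.y0, b.hy⟩
      | false => false
    | _ + 2 => match auto os g dir n ⟨b.x0, b.hx, b.y0 - Int.ofNat (half b.hy), half b.hy⟩ with
      | true => auto os g dir n ⟨b.x0, b.hx, b.y0 + Int.ofNat (half b.hy), half b.hy⟩
      | false => false

theorem half_split {x x0 : ℝ} {h : Nat} (hx : |x - x0| ≤ h) :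
    |x - (x0 - (half h : ℕ))| ≤ (half h : ℕ) ∨ |x - (x0 + (half h : ℕ))| ≤ (half h : ℕ) := by
  have h1 : h ≤ 2 * half h := by unfold half; omega
  have h1' : (h:ℝ) ≤ 2 * (half h : ℕ) := by exact_mod_cast h1
  rw [abs_le] at hx
  rcases le_total x x0 with h | h
  · left; rw [abs_le]; constructor <;> linarith [hx.1, hx.2]
  · right; rw [abs_le]; constructor <;> linarith [hx.1, hx.2]

theorem auto_sound (os : List Op) (g : List (List Nat)) (dir : Nat) :
    ∀ (n : Nat) (b : Box), auto os g dir n b = true → ∀ x y : ℝ, b.Has x y → Goal (sem x y os []) g := by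
  have hS := S_pos
  intro n
  induction n with
  | zero => intro b h; simp [auto] at h
  | succ n ih =>
    intro b h x y hb
    simp only [auto] at h
    rcases ht : tryBox os g dir b with _ | _ | k
    · -- proved
      unfold tryBox at ht
      cases he : evalP b os [] with
      | none =>
        rw [he] at ht
        simp only at ht
        split at ht <;> simp at ht
      | some st =>
        rw [he] at ht
        simp only at ht
        cases hg : goalOk st g with
        | false =>
          rw [hg] at ht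
          simp only at ht
          split at ht <;> simp at ht
        | true =>
          have hxc : ((b.x0:ℝ) / S) * S = b.x0 := by field_simp
          have hyc : ((b.y0:ℝ) / S) * S = b.y0 := by field_simp
          have e1 : |(x - (b.x0:ℝ) / S) * S| ≤ b.hx := by rw [sub_mul, hxc]; exact hb.1
          have e2 : |(y - (b.y0:ℝ) / S) * S| ≤ b.hy := by rw [sub_mul, hyc]; exact hb.2
          exact goalOk_sound (evalP_sound hxc hyc e1 e2 os [] [] [] st EncL.nil he) g hg
    · rw [ht] at h
      simp only at h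
      cases h1 : auto os g dir n ⟨b.x0 - Int.ofNat (half b.hx), half b.hx, b.y0, b.hy⟩ with
      | false => rw [h1] at h; simp at h
      | true =>
        rw [h1] at h
        simp only at h
        rcases half_split hb.1 with hh | hh
        · refine ih _ h1 x y ⟨?_, hb.2⟩
          simpa using hh
        · refine ih _ h x y ⟨?_, hb.2⟩
          simpa using hh
    · rw [ht] at h
      simp only at h
      cases h1 : auto os g dir n ⟨b.x0, b.hx, b.y0 - Int.ofNat (half b.hy), half b.hy⟩ with
      | false => rw [h1] at h; simp at h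
      | true =>
        rw [h1] at h
        simp only at h
        rcases half_split hb.2 with hh | hh
        · refine ih _ h1 x y ⟨hb.1, ?_⟩
          simpa using hh
        · refine ih _ h x y ⟨hb.1, ?_⟩
          simpa using hh

end Pool.TLI
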