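import Mathlib

/-!
# Interval / slope arithmetic tool (crew TL)

Fixed point numbers with scale `2^50`, midpoint-radius intervals `I`, slope forms `Sl` in two variables,
straight line programs `Op`, adaptive checker `auto`, everything meant for `decide +kernel`.
-/

set_option autoImplicit false

namespace Pool.TLI

/-- midpoint - radius interval, scale `2^50` -/
structure I where
  c : Int
  r : Nat

/-- the scale `2^50` -/
noncomputable def S : ℝ := 1125899906842624

def Mem (x : ℝ) (a : I) : Prop := |x * S - (a.c : ℝ)| ≤ (a.r : ℝ)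

theorem S_pos : (0:ℝ) < S := by unfold S; norm_num

def I.add (a b : I) : I := ⟨a.c + b.c, a.r + b.r⟩
def I.sub (a b : I) : I := ⟨a.c - b.c, a.r + b.r⟩
def I.neg (a : I) : I := ⟨- a.c, a.r⟩
def I.mul (a b : I) : I :=
  ⟨(a.c * b.c) / 1125899906842624,
    (a.c.natAbs * b.r + b.c.natAbs * a.r + a.r * b.r) / 1125899906842624 + 2⟩
def I.smul (k : Int) (a : I) : I := ⟨k * a.c, k.natAbs * a.r⟩

theorem mem_add {x y : ℝ} {a b : I} (hx : Mem x a) (hy : Mem y b) : Mem (x + y) (a.add b) := by
  unfold Mem I.add at *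
  push_cast
  have : (x + y) * S - ((a.c : ℝ) + b.c) = (x * S - a.c) + (y * S - b.c) := by ring
  rw [this]
  exact (abs_add_le _ _).trans (add_le_add hx hy)

theorem mem_sub {x y : ℝ} {a b : I} (hx : Mem x a) (hy : Mem y b) : Mem (x - y) (a.sub b) := by
  unfold Mem I.sub at *
  push_cast
  have : (x - y) * S - ((a.c : ℝ) - b.c) = (x * S - a.c) - (y * S - b.c) := by ring
  rw [this]
  exact (abs_sub _ _).trans (add_le_add hx hy)

theorem mem_neg {x : ℝ} {a : I} (hx : Mem x a) : Mem (-x) a.neg := by
  unfold Mem I.neg at *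
  push_cast
  have : (-x) * S - (-(a.c : ℝ)) = -(x * S - a.c) := by ring
  rw [this, abs_neg]
  exact hx

theorem abs_cast_int (k : Int) : |(k:ℝ)| = ((k.natAbs : ℕ) : ℝ) := by
  rw [Nat.cast_natAbs]; push_cast; rfl

theorem mem_smul {x : ℝ} {a : I} (k : Int) (hx : Mem x a) : Mem ((k:ℝ) * x) (a.smul k) := by
  unfold Mem I.smul at *
  rw [Nat.cast_mul, ← abs_cast_int, Int.cast_mul]
  have : ((k:ℝ) * x) * S - ((k:ℝ) * (a.c : ℝ)) = (k:ℝ) * (x * S - a.c) := by ring
  rw [this, abs_mul]
  exact mul_le_mul_of_nonneg_left hx (abs_nonneg (k:ℝ))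

theorem ediv_bounds (z : Int) :
    ((z / 1125899906842624 : Int) : ℝ) * S ≤ z ∧ (z:ℝ) < (((z / 1125899906842624 : Int) : ℝ) + 1) * S := by
  have h1 := Int.mul_ediv_add_emod z 1125899906842624
  have h2 := Int.emod_nonneg z (show (1125899906842624 : Int) ≠ 0 by norm_num)
  have h3 := Int.emod_lt_of_pos z (show (0 : Int) < 1125899906842624 by norm_num)
  have h1' : (z:ℝ) = 1125899906842624 * ((z / 1125899906842624 : Int) : ℝ) + ((z % 1125899906842624 : Int) : ℝ) := by
    exact_mod_cast h1.symm
  have h2' : (0:ℝ) ≤ ((z % 1125899906842624 : Int) : ℝ) := by exact_mod_cast h2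
  have h3' : ((z % 1125899906842624 : Int) : ℝ) < 1125899906842624 := by exact_mod_cast h3
  unfold S
  constructor <;> nlinarith

theorem ndiv_bounds (z : Nat) :
    (z:ℝ) ≤ (((z / 1125899906842624 : Nat) : ℝ) + 1) * S := by
  have h1 := Nat.div_add_mod z 1125899906842624
  have h3 := Nat.mod_lt z (show 1125899906842624 > 0 by norm_num)
  have h1' : (z:ℝ) = 1125899906842624 * ((z / 1125899906842624 : Nat) : ℝ) + ((z % 1125899906842624 : Nat) : ℝ) := by
    exact_mod_cast h1.symm
  have h3' : ((z % 1125899906842624 : Nat) : ℝ) < 1125899906842624 := by exact_mod_cast h3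
  unfold S
  nlinarith

theorem mem_mul {x y : ℝ} {a b : I} (hx : Mem x a) (hy : Mem y b) : Mem (x * y) (a.mul b) := by
  unfold Mem I.mul at *
  obtain ⟨d1, d2⟩ := ediv_bounds (a.c * b.c)
  have d3 := ndiv_bounds (a.c.natAbs * b.r + b.c.natAbs * a.r + a.r * b.r)
  push_cast at d1 d2 d3 ⊢
  rw [← abs_cast_int, ← abs_cast_int] at d3
  set q : ℝ := (((a.c * b.c / 1125899906842624 : Int)) : ℝ)
  set n : ℝ := (((a.c.natAbs * b.r + b.c.natAbs * a.r + a.r * b.r) / 1125899906842624 : Nat) : ℝ)
  have hS := S_pos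
  -- |XY - ab| ≤ R
  have hR : |x * S * (y * S) - (a.c:ℝ) * b.c| ≤ |(a.c:ℝ)| * b.r + |(b.c:ℝ)| * a.r + a.r * b.r := by
    have e : x * S * (y * S) - (a.c:ℝ) * b.c
        = (x * S - a.c) * (y * S - b.c) + (a.c:ℝ) * (y * S - b.c) + (b.c:ℝ) * (x * S - a.c) := by ring
    rw [e]
    have t1 : |(x * S - a.c) * (y * S - b.c)| ≤ (a.r:ℝ) * b.r := by
      rw [abs_mul]; exact mul_le_mul hx hy (abs_nonneg _) (by positivity)
    have t2 : |(a.c:ℝ) * (y * S - b.c)| ≤ |(a.c:ℝ)| * b.r := by
      rw [abs_mul]; exact mul_le_mul_of_nonneg_left hy (abs_nonneg _)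
    have t3 : |(b.c:ℝ) * (x * S - a.c)| ≤ |(b.c:ℝ)| * a.r := by
      rw [abs_mul]; exact mul_le_mul_of_nonneg_left hx (abs_nonneg _)
    have t4 := abs_add_le ((x * S - a.c) * (y * S - b.c) + (a.c:ℝ) * (y * S - b.c)) ((b.c:ℝ) * (x * S - a.c))
    have t5 := abs_add_le ((x * S - a.c) * (y * S - b.c)) ((a.c:ℝ) * (y * S - b.c))
    linarith
  have hR' : |x * S * (y * S) - (a.c:ℝ) * b.c| ≤ (n + 1) * S := hR.trans d3
  rw [abs_le] at hR' ⊢
  constructor
  · have : (-(n + 2) + q) * S ≤ (x * y * S) * S := by nlinarith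
    have := le_of_mul_le_mul_right this hS
    linarith
  · have : (x * y * S) * S ≤ (n + 2 + q) * S := by nlinarith
    have := le_of_mul_le_mul_right this hS
    linarith

/-- inverse; correct if `a.r < a.c` -/
def I.inv (a : I) : I :=
  ⟨Int.ofNat (1267650600228229401496703205376 / a.c.toNat),
    (a.r * 1267650600228229401496703205376) / (a.c.toNat * (a.c.toNat - a.r)) + 2⟩

def I.pos (a : I) : Bool := Nat.blt a.r a.c.toNat

theorem I.pos_iff {a : I} (h : a.pos = true) : a.r < a.c.toNat := by
  unfold I.pos at h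
  exact Nat.le_of_ble_eq_true h

theorem toNat_cast {a : I} (h : a.r < a.c.toNat) : ((a.c.toNat : ℕ) : ℝ) = (a.c : ℝ) := by
  have h1 : (0:ℤ) ≤ a.c := by
    by_contra hneg
    push Not at hneg
    have := Int.toNat_of_nonpos hneg.le
    omega
  have h2 := Int.toNat_of_nonneg h1
  exact_mod_cast congrArg (fun z : ℤ => (z:ℝ)) h2

theorem mem_pos {x : ℝ} {a : I} (h : a.pos = true) (hx : Mem x a) : 0 < x := by
  have h1 := I.pos_iff h
  have h2 := toNat_cast h1
  have h3 : (a.r : ℝ) < (a.c : ℝ) := by rw [← h2]; exact_mod_cast h1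
  unfold Mem at hx
  rw [abs_le] at hx
  have : 0 < x * S := by linarith [hx.1]
  exact (pos_iff_pos_of_mul_pos this).mpr S_pos

theorem mem_inv {x : ℝ} {a : I} (h : a.pos = true) (hx : Mem x a) : Mem (1 / x) a.inv := by
  have hxp := mem_pos h hx
  have h1 := I.pos_iff h
  have h2 := toNat_cast h1
  have hS := S_pos
  unfold Mem at hx ⊢
  unfold I.inv
  set n : ℕ := a.c.toNat with hn
  have hnr : ((n - a.r : ℕ) : ℝ) = (n:ℝ) - a.r := by rw [Nat.cast_sub h1.le]
  have hn0 : (0:ℝ) < n := by
    have : 0 < n := lt_of_le_of_lt (Nat.zero_le _) h1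
    exact_mod_cast this
  have hr : (a.r:ℝ) < n := by exact_mod_cast h1
  rw [← h2] at hx
  -- floor bounds
  have f1 := Nat.div_add_mod 1267650600228229401496703205376 n
  have f2 := Nat.mod_lt 1267650600228229401496703205376 (show n > 0 by exact_mod_cast hn0)
  have f1' : (1267650600228229401496703205376:ℝ) = n * ((1267650600228229401496703205376 / n : ℕ) : ℝ)
      + ((1267650600228229401496703205376 % n : ℕ) : ℝ) := by exact_mod_cast f1.symm
  have f2' : ((1267650600228229401496703205376 % n : ℕ) : ℝ) < n := by exact_mod_cast f2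
  have f3' : (0:ℝ) ≤ ((1267650600228229401496703205376 % n : ℕ) : ℝ) := by positivity
  set m : ℕ := n * (n - a.r) with hm
  have hm0 : 0 < m := Nat.mul_pos (by exact_mod_cast hn0) (Nat.sub_pos_of_lt h1)
  have g1 := Nat.div_add_mod (a.r * 1267650600228229401496703205376) m
  have g2 := Nat.mod_lt (a.r * 1267650600228229401496703205376) hm0
  have g1' : ((a.r:ℝ) * 1267650600228229401496703205376) = m * ((a.r * 1267650600228229401496703205376 / m : ℕ) : ℝ)
      + ((a.r * 1267650600228229401496703205376 % m : ℕ) : ℝ) := by exact_mod_cast g1.symm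
  have g2' : ((a.r * 1267650600228229401496703205376 % m : ℕ) : ℝ) < m := by exact_mod_cast g2
  have hmR : (m:ℝ) = n * (n - a.r) := by rw [hm]; push_cast; rw [hnr]
  have hm0' : (0:ℝ) < m := by exact_mod_cast hm0
  set q1 : ℝ := ((1267650600228229401496703205376 / n : ℕ) : ℝ)
  set q2 : ℝ := ((a.r * 1267650600228229401496703205376 / m : ℕ) : ℝ) with hq2
  have hcast : (((Int.ofNat (1267650600228229401496703205376 / n) : ℤ)) : ℝ) = q1 := by
    simp only [Int.ofNat_eq_natCast, Int.cast_natCast]; rfl
  have hcast2 : (((a.r * 1267650600228229401496703205376) / (n * (n - a.r)) + 2 : ℕ) : ℝ) = q2 + 2 := by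
    push_cast; rfl
  rw [hcast, hcast2]
  -- S^2 = 2^100
  have hS2 : S * S = 1267650600228229401496703205376 := by unfold S; norm_num
  have hX : 0 < x * S := mul_pos hxp hS
  have e1 : 1 / x * S = 1267650600228229401496703205376 / (x * S) := by
    rw [← hS2]; field_simp
  rw [e1]
  rw [abs_le] at hx
  have hXlo : (n:ℝ) - a.r ≤ x * S := by linarith [hx.1]
  have hXhi : x * S ≤ n + a.r := by linarith [hx.2]
  have hnr0 : (0:ℝ) < n - a.r := by linarith
  have A1 : |1267650600228229401496703205376 / (x * S) - 1267650600228229401496703205376 / (n:ℝ)|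
      ≤ a.r * 1267650600228229401496703205376 / m := by
    have e2 : 1267650600228229401496703205376 / (x * S) - 1267650600228229401496703205376 / (n:ℝ)
        = 1267650600228229401496703205376 * (n - x * S) / (x * S * n) := by
      field_simp
    rw [e2, abs_div, abs_mul, abs_of_pos (show (0:ℝ) < x * S * n by positivity),
      abs_of_pos (show (0:ℝ) < 1267650600228229401496703205376 by norm_num)]
    have e3 : |(n:ℝ) - x * S| ≤ a.r := by rw [abs_le]; constructor <;> linarith
    rw [hmR]
    rw [div_le_div_iff₀ (by positivity) (by positivity)]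
    have e4 : (n:ℝ) * (n - a.r) ≤ x * S * n := by nlinarith
    have e5 : (0:ℝ) ≤ |(n:ℝ) - x * S| := abs_nonneg _
    have e6 : (0:ℝ) ≤ n * (n - a.r) := by positivity
    calc 1267650600228229401496703205376 * |(n:ℝ) - x * S| * (n * (n - a.r))
        ≤ 1267650600228229401496703205376 * a.r * (n * (n - a.r)) := by
          apply mul_le_mul_of_nonneg_right _ e6
          apply mul_le_mul_of_nonneg_left e3 (by norm_num)
      _ ≤ 1267650600228229401496703205376 * a.r * (x * S * n) := by
          apply mul_le_mul_of_nonneg_left e4 (by positivity)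
      _ = a.r * 1267650600228229401496703205376 * (x * S * n) := by ring
  have A2 : a.r * 1267650600228229401496703205376 / (m:ℝ) ≤ q2 + 1 := by
    rw [div_le_iff₀ hm0']
    nlinarith
  have A3 : |1267650600228229401496703205376 / (n:ℝ) - q1| ≤ 1 := by
    rw [abs_le]
    constructor
    · have : q1 ≤ 1267650600228229401496703205376 / (n:ℝ) := by
        rw [le_div_iff₀ hn0]; nlinarith
      linarith
    · have : 1267650600228229401496703205376 / (n:ℝ) ≤ q1 + 1 := by
        rw [div_le_iff₀ hn0]; nlinarith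
      linarith
  calc |1267650600228229401496703205376 / (x * S) - q1|
      ≤ |1267650600228229401496703205376 / (x * S) - 1267650600228229401496703205376 / (n:ℝ)|
        + |1267650600228229401496703205376 / (n:ℝ) - q1| := abs_sub_le _ _ _
    _ ≤ (q2 + 1) + 1 := add_le_add (A1.trans A2) A3
    _ = q2 + 2 := by ring

/-! ### base two logarithm -/

def lgF : Nat → Nat → Nat
  | 0, _ => 0
  | n + 1, u =>
    match Nat.blt (u * u / 1125899906842624) 2251799813685248 with
    | true => lgF n (u * u / 1125899906842624)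
    | false => 2 ^ n + lgF n (u * u / 1125899906842624 / 2)

theorem log2_half : (1:ℝ) / 2 ≤ Real.log 2 := by
  have := Real.log_two_gt_d9
  linarith

theorem logb_succ {v : ℝ} (hv : 0 < v) : Real.logb 2 (v + 1) ≤ Real.logb 2 v + 2 / v := by
  have h1 : Real.logb 2 (v + 1) - Real.logb 2 v = Real.log ((v + 1) / v) / Real.log 2 := by
    rw [Real.logb, Real.logb, Real.log_div (by positivity) hv.ne']; ring
  have h2 : Real.log ((v + 1) / v) ≤ 1 / v := by
    have := Real.log_le_sub_one_of_pos (show 0 < (v + 1) / v by positivity)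
    have e : (v + 1) / v - 1 = 1 / v := by field_simp; ring
    linarith
  have h3 := log2_half
  have h4 : Real.log ((v + 1) / v) / Real.log 2 ≤ 2 / v := by
    rw [div_le_iff₀ (by linarith)]
    have : 2 / v * (1 / 2) ≤ 2 / v * Real.log 2 := mul_le_mul_of_nonneg_left h3 (by positivity)
    have e : 2 / v * (1 / 2) = 1 / v := by field_simp
    linarith
  linarith

theorem logb_mono {a b : ℝ} (ha : 0 < a) (h : a ≤ b) : Real.logb 2 a ≤ Real.logb 2 b :=
  Real.logb_le_logb_of_le (by norm_num) ha h

theorem lgF_bounds (n : ℕ) : ∀ u : ℕ, 1125899906842624 ≤ u → u < 2251799813685248 →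
    (lgF n u : ℝ) ≤ 2 ^ n * Real.logb 2 ((u:ℝ) / S) ∧
    2 ^ n * Real.logb 2 ((u:ℝ) / S) ≤ lgF n u + 1 + 2 ^ n / 562949953421312 := by
  induction n with
  | zero =>
    intro u h1 h2
    have h1' : (1125899906842624:ℝ) ≤ u := by exact_mod_cast h1
    have h2' : (u:ℝ) < 2251799813685248 := by exact_mod_cast h2
    have hS : S = 1125899906842624 := rfl
    simp only [lgF]
    push_cast
    have g1 : Real.logb 2 1 ≤ Real.logb 2 ((u:ℝ) / S) :=
      logb_mono (by norm_num) (by rw [hS, le_div_iff₀ (by norm_num)]; linarith)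
    have g2 : Real.logb 2 ((u:ℝ) / S) ≤ Real.logb 2 2 :=
      logb_mono (by rw [hS]; positivity) (by rw [hS, div_le_iff₀ (by norm_num)]; linarith)
    rw [Real.logb_one] at g1
    rw [Real.logb_self_eq_one (by norm_num)] at g2
    constructor
    · linarith
    · norm_num at *; linarith
  | succ n ih =>
    intro u h1 h2
    have h1' : (1125899906842624:ℝ) ≤ u := by exact_mod_cast h1
    have h2' : (u:ℝ) < 2251799813685248 := by exact_mod_cast h2
    have hS : S = 1125899906842624 := rfl
    have hS0 := S_pos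
    have hu0 : (0:ℝ) < u := by linarith
    set y : ℕ := u * u / 1125899906842624 with hy
    have d1 := Nat.div_add_mod (u * u) 1125899906842624
    have d2 := Nat.mod_lt (u * u) (show 1125899906842624 > 0 by norm_num)
    rw [← hy] at d1
    have d1' : (u:ℝ) * u = 1125899906842624 * y + ((u * u % 1125899906842624 : ℕ) : ℝ) := by
      exact_mod_cast d1.symm
    have d2' : ((u * u % 1125899906842624 : ℕ) : ℝ) < 1125899906842624 := by exact_mod_cast d2
    have d3' : (0:ℝ) ≤ ((u * u % 1125899906842624 : ℕ) : ℝ) := by positivity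
    have hylo : 1125899906842624 ≤ y := by
      rw [hy]
      rw [Nat.le_div_iff_mul_le (by norm_num)]
      exact Nat.mul_le_mul h1 h1
    have hyhi : y < 4503599627370496 := by
      rw [hy]
      rw [Nat.div_lt_iff_lt_mul (by norm_num)]
      calc u * u < 2251799813685248 * 2251799813685248 := Nat.mul_lt_mul'' h2 h2
        _ = _ := by norm_num
    have hy0 : (0:ℝ) < y := by
      have : (1125899906842624:ℝ) ≤ y := by exact_mod_cast hylo
      linarith
    -- log2 (u/S) = 1/2 log2 (u u / S^2)
    have hlog : (2:ℝ) ^ (n+1) * Real.logb 2 ((u:ℝ) / S) = 2 ^ n * Real.logb 2 ((u:ℝ) * u / S / S) := by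
      have : (u:ℝ) * u / S / S = ((u:ℝ) / S) ^ 2 := by field_simp
      rw [this, Real.logb_pow]
      push_cast; ring
    cases hb : Nat.blt y 2251799813685248 with
    | true =>
      have hlt : y < 2251799813685248 := Nat.le_of_ble_eq_true hb
      have hl : lgF (n+1) u = lgF n y := by
        simp only [lgF]; rw [← hy, hb]
      rw [hl, hlog]
      obtain ⟨i1, i2⟩ := ih y hylo hlt
      constructor
      · refine i1.trans ?_
        apply mul_le_mul_of_nonneg_left _ (by positivity)
        apply logb_mono (by positivity)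
        gcongr
        rw [le_div_iff₀ hS0, hS]; linarith
      · have k1 : Real.logb 2 ((u:ℝ) * u / S / S) ≤ Real.logb 2 ((y:ℝ) / S) + 1 / 562949953421312 := by
          have e1 : Real.logb 2 ((u:ℝ) * u / S / S) ≤ Real.logb 2 (((y:ℝ) + 1) / S) := by
            apply logb_mono (by positivity)
            gcongr
            rw [div_le_iff₀ hS0, hS]; linarith
          have e2 : Real.logb 2 (((y:ℝ) + 1) / S) = Real.logb 2 ((y:ℝ) + 1) - Real.logb 2 S := by
            rw [Real.logb_div (by positivity) hS0.ne']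
          have e3 : Real.logb 2 ((y:ℝ) / S) = Real.logb 2 (y:ℝ) - Real.logb 2 S := by
            rw [Real.logb_div (by positivity) hS0.ne']
          have e4 := logb_succ hy0
          have e5 : 2 / (y:ℝ) ≤ 1 / 562949953421312 := by
            rw [div_le_div_iff₀ hy0 (by norm_num)]
            have : (1125899906842624:ℝ) ≤ y := by exact_mod_cast hylo
            linarith
          linarith
        have k2 := mul_le_mul_of_nonneg_left k1 (show (0:ℝ) ≤ 2 ^ n by positivity)
        have k3 : (2:ℝ) ^ (n+1) / 562949953421312 = 2 ^ n / 562949953421312 + 2 ^ n * (1 / 562949953421312) := by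
          ring
        rw [k3]
        linarith
    | false =>
      have hge : 2251799813685248 ≤ y := by
        by_contra hc
        push Not at hc
        have := Nat.ble_eq_true_of_le hc
        unfold Nat.blt at hb
        rw [hb] at this
        exact absurd this (by simp)
      have hl : lgF (n+1) u = 2 ^ n + lgF n (y / 2) := by
        simp only [lgF]; rw [← hy, hb]
      set z : ℕ := y / 2 with hz
      have z1 := Nat.div_add_mod y 2
      have z2 := Nat.mod_lt y (show 2 > 0 by norm_num)
      rw [← hz] at z1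
      have z1' : (y:ℝ) = 2 * z + ((y % 2 : ℕ) : ℝ) := by exact_mod_cast z1.symm
      have z2' : ((y % 2 : ℕ) : ℝ) ≤ 1 := by
        have : y % 2 ≤ 1 := by omega
        exact_mod_cast this
      have z3' : (0:ℝ) ≤ ((y % 2 : ℕ) : ℝ) := by positivity
      have hzlo : 1125899906842624 ≤ z := by omega
      have hzhi : z < 2251799813685248 := by omega
      have hz0 : (0:ℝ) < z := by
        have : (1125899906842624:ℝ) ≤ z := by exact_mod_cast hzlo
        linarith
      rw [hl, hlog]
      push_cast
      obtain ⟨i1, i2⟩ := ih z hzlo hzhi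
      have h2S : Real.logb 2 (2 * ((z:ℝ) / S)) = 1 + Real.logb 2 ((z:ℝ) / S) := by
        rw [Real.logb_mul (by norm_num) (by positivity), Real.logb_self_eq_one (by norm_num)]
      constructor
      · have k1 : 1 + Real.logb 2 ((z:ℝ) / S) ≤ Real.logb 2 ((u:ℝ) * u / S / S) := by
          rw [← h2S]
          apply logb_mono (by positivity)
          rw [← mul_div_assoc]
          gcongr
          rw [le_div_iff₀ hS0, hS]; linarith
        have k2 := mul_le_mul_of_nonneg_left k1 (show (0:ℝ) ≤ 2 ^ n by positivity)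
        linarith
      · have k1 : Real.logb 2 ((u:ℝ) * u / S / S) ≤ 1 + Real.logb 2 ((z:ℝ) / S) + 1 / 562949953421312 := by
          have e1 : Real.logb 2 ((u:ℝ) * u / S / S) ≤ Real.logb 2 (2 * (((z:ℝ) + 1) / S)) := by
            apply logb_mono (by positivity)
            rw [← mul_div_assoc]
            gcongr
            rw [div_le_iff₀ hS0, hS]; linarith
          have e2 : Real.logb 2 (2 * (((z:ℝ) + 1) / S)) = 1 + (Real.logb 2 ((z:ℝ) + 1) - Real.logb 2 S) := by
            rw [Real.logb_mul (by norm_num) (by positivity), Real.logb_self_eq_one (by norm_num),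
              Real.logb_div (by positivity) hS0.ne']
          have e3 : Real.logb 2 ((z:ℝ) / S) = Real.logb 2 (z:ℝ) - Real.logb 2 S := by
            rw [Real.logb_div (by positivity) hS0.ne']
          have e4 := logb_succ hz0
          have e5 : 2 / (z:ℝ) ≤ 1 / 562949953421312 := by
            rw [div_le_div_iff₀ hz0 (by norm_num)]
            have : (1125899906842624:ℝ) ≤ z := by exact_mod_cast hzlo
            linarith
          linarith
        have k2 := mul_le_mul_of_nonneg_left k1 (show (0:ℝ) ≤ 2 ^ n by positivity)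
        have k3 : (2:ℝ) ^ (n+1) / 562949953421312 = 2 ^ n / 562949953421312 + 2 ^ n * (1 / 562949953421312) := by
          ring
        rw [k3]
        linarith

/-- enclosure of `log₂ x` for `x ∈ a`, valid if `a.lgok` -/
def I.lg (a : I) : I :=
  ⟨Int.ofNat ((lgF 36 (a.c.toNat * 2 ^ (50 - Nat.log2 a.c.toNat)) + 1) * 16384)
      - Int.ofNat ((50 - Nat.log2 a.c.toNat) * 1125899906842624),
    (a.r * 2251799813685248) / (a.c.toNat - a.r) + 16385⟩

def I.lgok (a : I) : Bool := a.pos && Nat.ble (Nat.log2 a.c.toNat) 50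

theorem mem_lg {x : ℝ} {a : I} (h : a.lgok = true) (hx : Mem x a) : Mem (Real.logb 2 x) a.lg := by
  unfold I.lgok at h
  rw [Bool.and_eq_true] at h
  obtain ⟨h0, hk⟩ := h
  have hk := Nat.le_of_ble_eq_true hk
  have hxp := mem_pos h0 hx
  have h1 := I.pos_iff h0
  have h2 := toNat_cast h1
  have hS := S_pos
  have hSd : S = 1125899906842624 := rfl
  unfold Mem at hx ⊢
  unfold I.lg
  set n : ℕ := a.c.toNat with hn
  rw [← h2] at hx
  have hn0 : 0 < n := lt_of_le_of_lt (Nat.zero_le _) h1
  have hn0' : (0:ℝ) < n := by exact_mod_cast hn0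
  have hr : (a.r:ℝ) < n := by exact_mod_cast h1
  set k : ℕ := Nat.log2 n with hkd
  have l1 : 2 ^ k ≤ n := Nat.log2_self_le hn0.ne'
  have l2 : n < 2 ^ (k + 1) := Nat.lt_log2_self
  set u : ℕ := n * 2 ^ (50 - k) with hu
  have hu1 : 1125899906842624 ≤ u := by
    have : 2 ^ k * 2 ^ (50 - k) ≤ n * 2 ^ (50 - k) := Nat.mul_le_mul_right _ l1
    rw [← pow_add, show k + (50 - k) = 50 by omega] at this
    norm_num at this; exact this
  have hu2 : u < 2251799813685248 := by
    have : n * 2 ^ (50 - k) < 2 ^ (k+1) * 2 ^ (50 - k) := Nat.mul_lt_mul_of_pos_right l2 (by positivity)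
    rw [← pow_add, show k + 1 + (50 - k) = 51 by omega] at this
    norm_num at this; exact this
  obtain ⟨b1, b2⟩ := lgF_bounds 36 u hu1 hu2
  set L : ℕ := lgF 36 u
  have hlogu : Real.logb 2 ((u:ℝ) / S) = Real.logb 2 ((n:ℝ) / S) + ((50 - k : ℕ) : ℝ) := by
    rw [hu]; push_cast
    rw [mul_div_right_comm, Real.logb_mul (by positivity) (by positivity), Real.logb_pow,
      Real.logb_self_eq_one (by norm_num)]
    ring
  rw [hlogu] at b1 b2
  set lam : ℝ := Real.logb 2 ((n:ℝ) / S)
  set d : ℝ := ((50 - k : ℕ) : ℝ)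
  -- difference of logs
  have D : |Real.logb 2 x - lam| * S ≤ a.r * 2251799813685248 / ((n:ℝ) - a.r) := by
    rw [abs_le] at hx
    have hX : 0 < x * S := mul_pos hxp hS
    have hXlo : (n:ℝ) - a.r ≤ x * S := by linarith [hx.1]
    have hXhi : x * S ≤ n + a.r := by linarith [hx.2]
    have hnr0 : (0:ℝ) < n - a.r := by linarith
    have e1 : Real.logb 2 x - lam = (Real.log (x * S) - Real.log n) / Real.log 2 := by
      show Real.logb 2 x - Real.logb 2 ((n:ℝ) / S) = _
      rw [Real.logb, Real.logb, Real.log_div hn0'.ne' hS.ne', Real.log_mul hxp.ne' hS.ne']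
      ring
    have e2 : |Real.log (x * S) - Real.log n| ≤ a.r / (n - a.r) := by
      rw [abs_le]
      constructor
      · have := Real.log_le_sub_one_of_pos (show 0 < (n:ℝ) / (x * S) by positivity)
        rw [Real.log_div hn0'.ne' hX.ne'] at this
        have g : (n:ℝ) / (x * S) - 1 ≤ a.r / (n - a.r) := by
          rw [div_sub_one hX.ne', div_le_div_iff₀ hX hnr0]
          nlinarith [show (0:ℝ) ≤ a.r from Nat.cast_nonneg _]
        linarith
      · have := Real.log_le_sub_one_of_pos (show 0 < (x * S) / (n:ℝ) by positivity)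
        rw [Real.log_div hX.ne' hn0'.ne'] at this
        have g : (x * S) / (n:ℝ) - 1 ≤ a.r / (n - a.r) := by
          rw [div_sub_one hn0'.ne', div_le_div_iff₀ hn0' hnr0]
          nlinarith [show (0:ℝ) ≤ a.r from Nat.cast_nonneg _]
        linarith
    rw [e1, abs_div, abs_of_pos (show 0 < Real.log 2 by have := log2_half; linarith)]
    have e3 := log2_half
    have e4 : |Real.log (x * S) - Real.log n| / Real.log 2 ≤ a.r / (n - a.r) * 2 := by
      rw [div_le_iff₀ (by linarith)]
      have : (0:ℝ) ≤ a.r / (n - a.r) := by positivity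
      nlinarith
    calc |Real.log (x * S) - Real.log n| / Real.log 2 * S ≤ (a.r / (n - a.r) * 2) * S :=
          mul_le_mul_of_nonneg_right e4 hS.le
      _ = _ := by rw [hSd]; ring
  -- integer division
  set m : ℕ := n - a.r with hm
  have hm0 : 0 < m := Nat.sub_pos_of_lt h1
  have hmR : (m:ℝ) = (n:ℝ) - a.r := by rw [hm, Nat.cast_sub h1.le]
  have g1 := Nat.div_add_mod (a.r * 2251799813685248) m
  have g2 := Nat.mod_lt (a.r * 2251799813685248) hm0
  have g1' : ((a.r:ℝ) * 2251799813685248) = m * ((a.r * 2251799813685248 / m : ℕ) : ℝ)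
      + ((a.r * 2251799813685248 % m : ℕ) : ℝ) := by exact_mod_cast g1.symm
  have g2' : ((a.r * 2251799813685248 % m : ℕ) : ℝ) < m := by exact_mod_cast g2
  have hm0' : (0:ℝ) < m := by exact_mod_cast hm0
  set q2 : ℝ := ((a.r * 2251799813685248 / m : ℕ) : ℝ)
  have A2 : a.r * 2251799813685248 / (m:ℝ) ≤ q2 + 1 := by
    rw [div_le_iff₀ hm0']
    nlinarith
  rw [← hmR] at D
  have c1 : (((Int.ofNat ((L + 1) * 16384) - Int.ofNat ((50 - k) * 1125899906842624) : ℤ)) : ℝ)
      = (L + 1) * 16384 - d * 1125899906842624 := by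
    simp only [Int.ofNat_eq_natCast, Int.cast_sub, Int.cast_natCast, Nat.cast_mul, Nat.cast_add,
      Nat.cast_one]
    norm_num
    rfl
  have c2 : (((a.r * 2251799813685248) / m + 16385 : ℕ) : ℝ) = q2 + 16385 := by push_cast; rfl
  rw [c1, c2]
  have B : |lam * S - ((L + 1) * 16384 - d * 1125899906842624)| ≤ 16384 := by
    rw [abs_le, hSd]
    norm_num at b1 b2
    constructor <;> nlinarith
  calc |Real.logb 2 x * S - ((L + 1) * 16384 - d * 1125899906842624)|
      ≤ |Real.logb 2 x * S - lam * S| + |lam * S - ((L + 1) * 16384 - d * 1125899906842624)| :=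
        abs_sub_le _ _ _
    _ ≤ (q2 + 1) + 16384 := by
        apply add_le_add _ B
        rw [← sub_mul, abs_mul, abs_of_pos hS]
        exact D.trans A2
    _ = q2 + 16385 := by ring

end Pool.TLI
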